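import Pool.Agent.Lib.MP_a0a715_lc_NB.Defs

/-!
# Sign epistasis in circuits
-/

namespace Pool.Agent.MPa0a715

open Pool.Agent.PolyTime

/-- No flip of a single bit leaves the cost unchanged. -/
def Circuit.TieFree (C : Circuit) : Prop :=
  ∀ x : List Bool, x.length = C.n → ∀ i < C.n, C.cost (flip x i) ≠ C.cost x

/-- At the input `x` bit `i` reacts to bit `j`: the flip of bit `j` changes whether the flip of
bit `i` decreases the cost. -/
def Circuit.Reacts (C : Circuit) (x : List Bool) (i j : ℕ) : Prop :=
  ¬ (C.cost (flip x i) < C.cost x ↔ C.cost (flip (flip x j) i) < C.cost (flip x j))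

/-- At the input `x` both bits react to each other. -/
def Circuit.Mutual (C : Circuit) (x : List Bool) (i j : ℕ) : Prop :=
  C.Reacts x i j ∧ C.Reacts x j i

/-- At the input `x` bit `i` reacts to bit `j`, but bit `j` does not react to bit `i`. -/
def Circuit.OneWay (C : Circuit) (x : List Bool) (i j : ℕ) : Prop :=
  C.Reacts x i j ∧ ¬ C.Reacts x j i

/-- No flip of a single bit leaves the cost unchanged, at most `a` bits meet all the pairs of
bits which react to each other at some input, and at most `b` bits meet all the pairs of bits of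
which exactly one reacts to the other one at some input (`⊤` stands for no bound). -/
def Circuit.Epistasis (a b : ℕ∞) (C : Circuit) : Prop :=
  C.TieFree ∧ ∃ A B : Set ℕ, A.encard ≤ a ∧ B.encard ≤ b ∧
    ∀ x : List Bool, x.length = C.n → ∀ i < C.n, ∀ j < C.n, i ≠ j →
      (C.Mutual x i j → i ∈ A ∨ j ∈ A) ∧ (C.OneWay x i j → i ∈ B ∨ j ∈ B)

end Pool.Agent.MPa0a715
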