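import Pool.Agent.Lib.MP_a0a715_lc_SE.Stmts
import Pool.Agent.Lib.MP_a0a715_lc_IN.EasyIN
import Pool.Agent.Lib.PolyTime.Converse

/-!
# Module ENUM: enumeration of short lists of assignments
-/

namespace Pool.Agent.MPa0a715.SE

open Pool.Agent.MPa0a715 Pool.Agent.PolyTime
open Pool.Agent.MPa0a715.IN (val_lt_cost)

/-- all lists of at most `c` assignments of bits `< n` -/
def sigs : ℕ → ℕ → List (List (ℕ × Bool))
  | 0, _ => [[]]
  | c + 1, n => [] :: (List.range n).flatMap fun i =>
      [true, false].flatMap fun b => (sigs c n).map fun s => (i, b) :: s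

theorem mem_sigs {n : ℕ} : ∀ (c : ℕ) (s : List (ℕ × Bool)), s.length ≤ c →
    (∀ p ∈ s, p.1 < n) → s ∈ sigs c n := by
  intro c
  induction c with
  | zero =>
    intro s hs _
    have : s = [] := List.length_eq_zero_iff.1 (by omega)
    rw [this, sigs]
    exact List.mem_singleton.2 rfl
  | succ c ih =>
    intro s hs hp
    rw [sigs]
    cases s with
    | nil => exact List.mem_cons_self
    | cons q s =>
      obtain ⟨i, b⟩ := q
      refine List.mem_cons_of_mem _ ?_
      rw [List.mem_flatMap]
      refine ⟨i, List.mem_range.2 (hp (i, b) List.mem_cons_self), ?_⟩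
      rw [List.mem_flatMap]
      refine ⟨b, by cases b <;> simp, ?_⟩
      rw [List.mem_map]
      refine ⟨s, ih s ?_ fun p hp' => hp p (List.mem_cons_of_mem _ hp'), rfl⟩
      rw [List.length_cons] at hs
      omega

section
variable {α : Type} [Enc α]

theorem ptime_sigs {n : α → ℕ} (hn : PU n) (c : ℕ) : PTime (fun a => sigs c (n a)) := by
  induction c with
  | zero => exact PTime.const _
  | succ c ih =>
    have h3 : PTime₂ (fun (q : (α × ℕ) × Bool) (s : List (ℕ × Bool)) => (q.1.2, q.2) :: s) :=
      PTime.cons (PTime.pair (PTime.snd' (PTime.fst' PTime.fst)) (PTime.snd' PTime.fst)) PTime.snd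
    have h2 : PTime₂ (fun (p : α × ℕ) (b : Bool) =>
        (sigs c (n p.1)).map fun s => (p.2, b) :: s) :=
      PTime.map (ih.comp (PTime.fst' PTime.fst)) h3
    have h1 : PTime₂ (fun (a : α) (i : ℕ) =>
        [true, false].flatMap fun b => (sigs c (n a)).map fun s => (i, b) :: s) :=
      PTime.flatMap (PTime.const _) h2
    exact PTime.cons (PTime.const _) (PTime.flatMap hn.range h1)

theorem ptime_ov {s : α → List (ℕ × Bool)} {i : α → ℕ} {b : α → Bool} (hs : PTime s)
    (hi : PTime i) (hb : PTime b) : PTime (fun a => ov (s a) (i a) (b a)) := by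
  have h1 : PTime₂ (fun (a : α) (p : ℕ × Bool) => decide (p.1 = i a)) :=
    PTime.eq (PTime.fst' PTime.snd) (hi.comp PTime.fst)
  refine (PTime.option_cases (PTime.find? hs h1) hb (h := fun q : α × (ℕ × Bool) => q.2.2)
    (PTime.snd' PTime.snd)).of_eq fun a => ?_
  unfold ov
  cases (s a).find? fun p => decide (p.1 = i a) <;> rfl

theorem ptime_assign {n : α → ℕ} {s : α → List (ℕ × Bool)} {x : α → List Bool} (hn : PU n)
    (hs : PTime s) (hx : PTime x) : PTime (fun a => assign (n a) (s a) (x a)) :=
  PTime.map (g := fun (a : α) (i : ℕ) => ov (s a) i ((x a).getD i false)) hn.range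
    (ptime_ov (hs.comp PTime.fst) PTime.snd
      (PTime.listGetD (hx.comp PTime.fst) PTime.snd (PTime.const false)))

end

theorem len_assign (n : ℕ) (s : List (ℕ × Bool)) (x : List Bool) :
    (assign n s x).length = n := by
  rw [assign, List.length_map, List.length_range]

/-- the better one of two inputs -/
def better1 (C : Circuit) (x y : List Bool) : List Bool :=
  if val (C.out y) < val (C.out x) then y else x

theorem fold_better (C : Circuit) : ∀ (l : List (List Bool)) (x : List Bool),
    (l.foldl (better1 C) x = x ∨ l.foldl (better1 C) x ∈ l) ∧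
    C.cost (l.foldl (better1 C) x) ≤ C.cost x ∧
    ∀ y ∈ l, C.cost (l.foldl (better1 C) x) ≤ C.cost y := by
  intro l
  induction l with
  | nil => intro x; exact ⟨Or.inl rfl, le_rfl, fun y hy => absurd hy List.not_mem_nil⟩
  | cons z l ih =>
    intro x
    rw [List.foldl_cons]
    obtain ⟨h1, h2, h3⟩ := ih (better1 C x z)
    have h4 : (better1 C x z = x ∨ better1 C x z = z) ∧ C.cost (better1 C x z) ≤ C.cost x ∧
        C.cost (better1 C x z) ≤ C.cost z := by
      unfold better1
      by_cases h : val (C.out z) < val (C.out x)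
      · rw [if_pos h]
        exact ⟨Or.inr rfl, (val_lt_cost.1 h).le, le_rfl⟩
      · rw [if_neg h]
        rw [val_lt_cost] at h
        exact ⟨Or.inl rfl, le_rfl, by omega⟩
    refine ⟨?_, h2.trans h4.2.1, ?_⟩
    · rcases h1 with h1 | h1
      · rw [h1]
        rcases h4.1 with h5 | h5
        · exact Or.inl h5
        · exact Or.inr (by rw [h5]; exact List.mem_cons_self)
      · exact Or.inr (List.mem_cons_of_mem _ h1)
    · intro y hy
      rcases List.mem_cons.1 hy with rfl | hy
      · exact h2.trans h4.2.2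
      · exact h3 y hy

theorem enum (hR : RestrStmt) : EnumStmt := by
  intro c P Q hP hQ
  obtain ⟨f, hf, hfP⟩ := hP
  obtain ⟨R, hRp, hRs⟩ := hR
  have hf' : PTime f := isPolyTime_iff.1 hf
  have hn := pu_n (PTime.id (α := Circuit))
  -- candidates
  have hc1 : PTime₂ (fun (C : Circuit) (s : List (ℕ × Bool)) => assign C.n s (f (R (C, s)))) :=
    ptime_assign (hn.comp PTime.fst) PTime.snd (hf'.comp hRp)
  have hc : PTime (fun C : Circuit => (sigs c C.n).map fun s => assign C.n s (f (R (C, s)))) :=
    PTime.map (ptime_sigs hn c) hc1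
  have hc0 : PTime (fun C : Circuit => assign C.n [] (f (R (C, [])))) :=
    ptime_assign hn (PTime.const _) (hf'.comp (hRp.comp (PTime.id.pair (PTime.const _))))
  have hz : PTime (fun C : Circuit => zeros C.n) := ptime_zeros hn
  obtain ⟨F, hF, hFm, hFs⟩ := hz.size_le
  have hb : PTime (fun p : Circuit × (List Bool × List Bool) => better1 p.1 p.2.1 p.2.2) := by
    have e1 : PTime (fun p : Circuit × (List Bool × List Bool) => val (p.1.out p.2.2)) :=
      (PTime.natOfBits (ptime_out PTime.fst (PTime.snd' PTime.snd))).of_eq fun p =>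
        (val_eq_ofBits _).symm
    have e2 : PTime (fun p : Circuit × (List Bool × List Bool) => val (p.1.out p.2.1)) :=
      (PTime.natOfBits (ptime_out PTime.fst (PTime.fst' PTime.snd))).of_eq fun p =>
        (val_eq_ofBits _).symm
    exact PTime.iteP (PTime.lt e1 e2) (PTime.snd' PTime.snd) (PTime.fst' PTime.snd)
  have hlen : ∀ (C : Circuit) (l : List (List Bool)) (x : List Bool), x.length = C.n →
      (∀ y ∈ l, y.length = C.n) → (l.foldl (better1 C) x).length = C.n := by
    intro C l x hx hl
    rcases (fold_better C l x).1 with h | h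
    · rw [h, hx]
    · exact hl _ h
  have hmem : ∀ (C : Circuit), ∀ y ∈ (sigs c C.n).map (fun s => assign C.n s (f (R (C, s)))),
      y.length = C.n := by
    intro C y hy
    obtain ⟨s, _, rfl⟩ := List.mem_map.1 hy
    exact len_assign _ _ _
  refine ⟨fun C => ((sigs c C.n).map fun s => assign C.n s (f (R (C, s)))).foldl (better1 C)
    (assign C.n [] (f (R (C, [])))), PTime.isPolyTime ?_, ?_⟩
  · refine PTime.foldl (h := fun (C : Circuit) (x y : List Bool) => better1 C x y) hc hc0 hb
      (B := fun n => F n * 4 + 1) ((hF.mul (PBd.const 4)).add (PBd.const 1)) ?_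
    intro C l₁ l₂ h
    refine (size_list_le _ 3 fun b _ => size_bool b).trans ?_
    rw [hlen C l₁ _ (len_assign _ _ _) fun y hy =>
      hmem C y (by rw [h]; exact List.mem_append_left _ hy)]
    have h3 := length_le_size (zeros C.n)
    rw [length_zeros] at h3
    have h4 := hFs C
    have h6 : C.n ≤ F (size (enc C)) := by omega
    have := Nat.mul_le_mul_right 4 h6
    omega
  · intro C hC hQC
    obtain ⟨_, _, h3⟩ := fold_better C ((sigs c C.n).map fun s => assign C.n s (f (R (C, s))))
      (assign C.n [] (f (R (C, []))))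
    refine ⟨hlen C _ _ (len_assign _ _ _) (hmem C), fun i hi => ?_⟩
    obtain ⟨s, hs1, hs2, hs3⟩ := hQ C hC hQC (by omega)
    obtain ⟨hv, hr⟩ := hRs C s (by omega)
    obtain ⟨hPR, hmin⟩ := hs3 _ hr
    have h4 := hmin _ (hfP _ hv hPR) (flip (((sigs c C.n).map fun s =>
      assign C.n s (f (R (C, s)))).foldl (better1 C) (assign C.n [] (f (R (C, []))))) i)
      (by rw [length_flip]; exact hlen C _ _ (len_assign _ _ _) (hmem C))
    exact (h3 _ (List.mem_map.2 ⟨s, mem_sigs c s hs1 hs2, rfl⟩)).trans h4

end Pool.Agent.MPa0a715.SE
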