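import Pool.Agent.Lib.MP_a0a715_lc_SE.Stmts
import Pool.Agent.Lib.MP_a0a715_lc.Copies
import Pool.Agent.Lib.MP_a0a715_lc_NB.Easy

/-!
# Reactions after the assignment of some bits
-/

namespace Pool.Agent.MPa0a715.SE

open Pool.Agent.MPa0a715 Pool.Agent.PolyTime
open Pool.Agent.MPa0a715.NB (flip_comm)

theorem length_assign (n : ℕ) (s : List (ℕ × Bool)) (x : List Bool) :
    (assign n s x).length = n := by
  unfold assign
  rw [List.length_map, List.length_range]

theorem getD_assign {n : ℕ} (s : List (ℕ × Bool)) (x : List Bool) {i : ℕ} (hi : i < n) :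
    (assign n s x).getD i false = ov s i (x.getD i false) := by
  rw [List.getD_eq_getElem _ _ (by rw [length_assign]; exact hi)]
  unfold assign
  rw [List.getElem_map, List.getElem_range]

theorem ov_free {s : List (ℕ × Bool)} {i : ℕ} (h : ∀ p ∈ s, p.1 ≠ i) (b : Bool) :
    ov s i b = b := by
  unfold ov
  have h1 : (s.find? fun p => decide (p.1 = i)) = none := by
    rw [List.find?_eq_none]
    intro p hp
    simpa using h p hp
  rw [h1]

theorem ov_key {s : List (ℕ × Bool)} {i : ℕ} (h : ¬ ∀ p ∈ s, p.1 ≠ i) (b b' : Bool) :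
    ov s i b = ov s i b' := by
  unfold ov
  cases h1 : (s.find? fun p => decide (p.1 = i)) with
  | none =>
    exfalso
    rw [List.find?_eq_none] at h1
    exact h fun p hp => by simpa using h1 p hp
  | some p => rfl

theorem assign_free {n : ℕ} {s : List (ℕ × Bool)} {x : List Bool} {i : ℕ} (hx : x.length = n)
    (h : ∀ p ∈ s, p.1 ≠ i) : assign n s (flip x i) = flip (assign n s x) i := by
  refine ext_getD (by rw [length_flip, length_assign, length_assign]) fun j hj => ?_
  rw [length_assign] at hj
  rw [getD_flip _ _ _ (by rw [length_assign]; exact hj), getD_assign _ _ hj, getD_assign _ _ hj,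
    getD_flip _ _ _ (by rw [hx]; exact hj)]
  by_cases hij : i = j
  · rw [if_pos hij, if_pos hij, ← hij, ov_free h, ov_free h]
  · rw [if_neg hij, if_neg hij]

theorem assign_key {n : ℕ} {s : List (ℕ × Bool)} {x : List Bool} {i : ℕ} (hx : x.length = n)
    (h : ¬ ∀ p ∈ s, p.1 ≠ i) : assign n s (flip x i) = assign n s x := by
  refine ext_getD (by rw [length_assign, length_assign]) fun j hj => ?_
  rw [length_assign] at hj
  rw [getD_assign _ _ hj, getD_assign _ _ hj, getD_flip _ _ _ (by rw [hx]; exact hj)]
  by_cases hij : i = j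
  · rw [if_pos hij, ← hij]
    exact ov_key h _ _
  · rw [if_neg hij]

theorem val_flip_lt {x : List Bool} {i : ℕ} (hi : i < x.length) (h : x.getD i false = true) :
    val (flip x i) < val x := by
  rw [val_lt_iff _ _ (length_flip x i)]
  refine ⟨i, by rw [length_flip]; exact hi, ?_, h, fun s hs his => ?_⟩
  · rw [getD_flip _ _ _ hi, if_pos rfl, h]
    rfl
  · rw [length_flip] at hs
    rw [getD_flip _ _ _ hs, if_neg (by omega)]

theorem lt_val_flip {x : List Bool} {i : ℕ} (hi : i < x.length) (h : x.getD i false = false) :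
    val x < val (flip x i) := by
  have h1 := val_flip_lt (x := flip x i) (i := i) (by rw [length_flip]; exact hi)
    (by rw [getD_flip _ _ _ hi, if_pos rfl, h]; rfl)
  rwa [flip_flip] at h1

section
variable {C R : Circuit} {s : List (ℕ × Bool)}

theorem restr_cost (hR : Restr C s R) {x : List Bool} (hx : x.length = C.n) :
    R.cost x = 2 * val x + 2 ^ C.n * C.cost (assign C.n s x) := by
  rw [Circuit.cost_eq, hR.2 x hx, val_append, Circuit.cost_eq, hx]
  ring

theorem restr_lt_iff_key (hR : Restr C s R) {x : List Bool} (hx : x.length = C.n) {i : ℕ}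
    (h : ¬ ∀ p ∈ s, p.1 ≠ i) : R.cost (flip x i) < R.cost x ↔ val (flip x i) < val x := by
  rw [restr_cost hR hx, restr_cost hR (by rw [length_flip]; exact hx), assign_key hx h]
  omega

theorem restr_ne_key (hR : Restr C s R) {x : List Bool} (hx : x.length = C.n) {i : ℕ}
    (hi : i < C.n) (h : ¬ ∀ p ∈ s, p.1 ≠ i) : R.cost (flip x i) ≠ R.cost x := by
  rw [restr_cost hR hx, restr_cost hR (by rw [length_flip]; exact hx), assign_key hx h]
  cases hb : x.getD i false with
  | true =>
    have := val_flip_lt (by rw [hx]; exact hi) hb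
    omega
  | false =>
    have := lt_val_flip (by rw [hx]; exact hi) hb
    omega

theorem block_cmp {a a' b b' M : ℕ} (ha : a < M) (ha' : a' < M) (hb : 2 * b ≠ 2 * b') :
    (2 * a + M * (2 * b) < 2 * a' + M * (2 * b') ↔ 2 * b < 2 * b') ∧
      2 * a + M * (2 * b) ≠ 2 * a' + M * (2 * b') := by
  rcases Nat.lt_or_gt_of_ne (show b ≠ b' by omega) with h | h
  · have h1 : M * (b + 1) ≤ M * b' := Nat.mul_le_mul_left M h
    have h2 : M * (2 * b) = 2 * (M * b) := by ring
    have h3 : M * (2 * b') = 2 * (M * b') := by ring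
    have h4 : M * (b + 1) = M * b + M := by ring
    constructor
    · constructor
      · intro _; omega
      · intro _; omega
    · omega
  · have h1 : M * (b' + 1) ≤ M * b := Nat.mul_le_mul_left M h
    have h2 : M * (2 * b) = 2 * (M * b) := by ring
    have h3 : M * (2 * b') = 2 * (M * b') := by ring
    have h4 : M * (b' + 1) = M * b' + M := by ring
    constructor
    · constructor
      · intro _; omega
      · intro _; omega
    · omega

theorem restr_free (hC : C.TieFree) (hR : Restr C s R) {x : List Bool} (hx : x.length = C.n)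
    {i : ℕ} (hi : i < C.n) (h : ∀ p ∈ s, p.1 ≠ i) :
    (R.cost (flip x i) < R.cost x ↔
      C.cost (flip (assign C.n s x) i) < C.cost (assign C.n s x)) ∧
      R.cost (flip x i) ≠ R.cost x := by
  have h0 := hC (assign C.n s x) (length_assign _ _ _) i hi
  have hl : (flip x i).length = C.n := by rw [length_flip]; exact hx
  have h1 : val x < 2 ^ C.n := by
    have := val_lt x
    rwa [hx] at this
  have h2 : val (flip x i) < 2 ^ C.n := by
    have := val_lt (flip x i)
    rwa [hl] at this
  rw [restr_cost hR hx, restr_cost hR hl, assign_free hx h]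
  rw [Circuit.cost_eq, Circuit.cost_eq] at h0 ⊢
  exact block_cmp h2 h1 h0

end

theorem trans : TransStmt := by
  intro C s R hC hR
  have hn : R.n = C.n := hR.1
  refine ⟨?_, ?_⟩
  · intro x hx i hi
    rw [hn] at hx hi
    by_cases h : ∀ p ∈ s, p.1 ≠ i
    · exact (restr_free hC hR hx hi h).2
    · exact restr_ne_key hR hx hi h
  · intro x hx i hi j hj hij
    have hxj : (flip x j).length = C.n := by rw [length_flip]; exact hx
    unfold Circuit.Reacts
    by_cases h : ∀ p ∈ s, p.1 ≠ i
    · rw [(restr_free hC hR hx hi h).1, (restr_free hC hR hxj hi h).1]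
      by_cases h' : ∀ p ∈ s, p.1 ≠ j
      · rw [assign_free hx h']
        exact ⟨fun h1 => ⟨h, h', h1⟩, fun h1 => h1.2.2⟩
      · rw [assign_key hx h']
        exact ⟨fun h1 => absurd Iff.rfl h1, fun h1 => absurd h1.2.1 h'⟩
    · rw [restr_lt_iff_key hR hx h, restr_lt_iff_key hR hxj h]
      refine ⟨fun h1 => ?_, fun h1 => absurd h1.1 h⟩
      exfalso
      refine h1 ?_
      have hb : (flip x j).getD i false = x.getD i false := by
        rw [getD_flip _ _ _ (by rw [hx]; exact hi), if_neg (Ne.symm hij)]
      cases hc : x.getD i false with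
      | true =>
        have h2 := val_flip_lt (by rw [hx]; exact hi) hc
        have h3 := val_flip_lt (x := flip x j) (i := i) (by rw [hxj]; exact hi)
          (by rw [hb, hc])
        exact ⟨fun _ => h3, fun _ => h2⟩
      | false =>
        have h2 := lt_val_flip (by rw [hx]; exact hi) hc
        have h3 := lt_val_flip (x := flip x j) (i := i) (by rw [hxj]; exact hi)
          (by rw [hb, hc])
        exact ⟨fun h4 => absurd h4 (by omega), fun h4 => absurd h4 (by omega)⟩

end Pool.Agent.MPa0a715.SE
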