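import Pool.Agent.Lib.MP_a0a715_lc_SE.Paths
import Pool.Agent.Lib.MP_a0a715_lc_SE.Trans
import Pool.Agent.Lib.MP_a0a715_lc_SE.Enum
import Pool.Agent.Lib.MP_a0a715_lc_OD.HardSide

/-!
# Few one-way pairs: local search; few mutual and few one-way pairs: enumeration
-/

namespace Pool.Agent.MPa0a715.SE

open Pool.Agent.MPa0a715 Pool.Agent.PolyTime
open Pool.Agent.MPa0a715.IN (step step_cases length_step ptime_step)

/-! ### one bit meets all the one-way pairs -/

theorem mono {a b a' b' : ℕ∞} (ha : a ≤ a') (hb : b ≤ b') {C : Circuit}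
    (h : C.Epistasis a b) : C.Epistasis a' b' := by
  obtain ⟨hT, A, B, hA, hB, h⟩ := h
  exact ⟨hT, A, B, hA.trans ha, hB.trans hb, h⟩

theorem improving_short {a : ℕ∞} {C : Circuit} (h : C.Epistasis a 1) {x : List Bool}
    {l : List ℕ} (hx : x.length = C.n) (hl : C.Improving x l) :
    l.length ≤ C.n * C.n + C.n := by
  obtain ⟨hT, A, B, _, hB, h⟩ := h
  rcases Nat.eq_zero_or_pos C.n with h0 | h0
  · cases l with
    | nil => exact Nat.zero_le _
    | cons i l =>
      have := NB.improving_lt (i :: l) x hl i List.mem_cons_self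
      omega
  · by_cases hk : ∃ k ∈ B, k < C.n
    · obtain ⟨k, hk, hkn⟩ := hk
      rw [Set.encard_le_one_iff] at hB
      refine paths C k hT hkn (fun y hy i hi j hj hij hik hjk ho => ?_) x l hx hl
      rcases (h y hy i hi j hj hij).2 ho with h1 | h1
      · exact hik (hB _ _ h1 hk)
      · exact hjk (hB _ _ h1 hk)
    · push Not at hk
      refine paths C 0 hT h0 (fun y hy i hi j hj hij _ _ ho => ?_) x l hx hl
      rcases (h y hy i hi j hj hij).2 ho with h1 | h1
      · have := hk _ h1
        omega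
      · have := hk _ h1
        omega

/-- local search -/
def search (C : Circuit) : List Bool :=
  (List.range (C.n * C.n + C.n + 1)).foldl (fun x _ => step C x) (zeros C.n)

theorem search_min {a : ℕ∞} {C : Circuit} (h : C.Epistasis a 1) : C.IsLocalMin (search C) := by
  unfold search
  rw [List.foldl_const, List.length_range]
  rcases NB.iterate_step (C := C) (C.n * C.n + C.n + 1) (zeros C.n) (length_zeros _) with
    h1 | ⟨l, h1, h2⟩
  · exact h1
  · have := improving_short h (length_zeros _) h1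
    omega

theorem ptime_search : PTime search := by
  have hn := pu_n (PTime.id (α := Circuit))
  have hz : PTime (fun C : Circuit => zeros C.n) := ptime_zeros hn
  obtain ⟨F, hF, hFm, hFs⟩ := hz.size_le
  have hr : PTime (fun C : Circuit => List.range (C.n * C.n + C.n + 1)) :=
    (((hn.mul hn).add hn).add (PU.const 1)).range
  refine PTime.foldl (h := fun (C : Circuit) (x : List Bool) (_ : ℕ) => step C x) hr hz
    (ptime_step PTime.fst (PTime.fst' PTime.snd)) (B := fun n => F n * 4 + 1) ?_ ?_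
  · exact (hF.mul (PBd.const 4)).add (PBd.const 1)
  · intro C l₁ l₂ _
    have hlen : ∀ (l : List ℕ) (y : List Bool),
        (l.foldl (fun x _ => step C x) y).length = y.length := by
      intro l
      induction l with
      | nil => intro y; rfl
      | cons a l ih =>
        intro y
        rw [List.foldl_cons, ih, length_step]
    refine (size_list_le _ 3 fun b _ => size_bool b).trans ?_
    rw [hlen]
    have h3 := length_le_size (zeros C.n)
    have h4 := hFs C
    have h6 : (zeros C.n).length ≤ F (size (enc C)) := by omega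
    have := Nat.mul_le_mul_right 4 h6
    omega

/-- at most one bit meets all the one-way pairs: there is a polynomial-time solver -/
theorem easy1 (a : ℕ∞) : HasSolver (Circuit.Epistasis a 1) :=
  ⟨search, ptime_search.isPolyTime, fun _ _ h => search_min h⟩

/-! ### enumeration -/

/-- an input of minimal cost -/
theorem exists_cost_min (C : Circuit) : ∃ z : List Bool, z.length = C.n ∧
    ∀ y : List Bool, y.length = C.n → C.cost z ≤ C.cost y := by
  obtain ⟨z, hz, h⟩ := Set.exists_min_image {l : List Bool | l.length = C.n} C.cost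
    (List.finite_length_eq Bool C.n) ⟨List.replicate C.n false, by simp⟩
  exact ⟨z, hz, h⟩

/-- a good list of assignments -/
theorem exists_sig (hsinks : SinksStmt) {C : Circuit} (hT : C.TieFree) {K : Set ℕ} {c : ℕ}
    (hK : K.encard ≤ c)
    (hM : ∀ x : List Bool, x.length = C.n → ∀ i < C.n, ∀ j < C.n, i ≠ j →
      C.Mutual x i j → i ∈ K ∨ j ∈ K) :
    ∃ s : List (ℕ × Bool), s.length ≤ c ∧ (∀ p ∈ s, p.1 < C.n) ∧
      (∀ i ∈ K, i < C.n → ¬ ∀ p ∈ s, p.1 ≠ i) ∧ ∀ R : Circuit, Restr C s R →
      (∀ x : List Bool, x.length = C.n → ∀ i < C.n, ∀ j < C.n, i ≠ j → ¬ R.Mutual x i j) ∧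
      ∀ x : List Bool, R.IsLocalMin x → ∀ y : List Bool, y.length = C.n →
        C.cost (assign C.n s x) ≤ C.cost y := by
  classical
  obtain ⟨z, hz, hzmin⟩ := exists_cost_min C
  have hfin : K.Finite := Set.finite_of_encard_le_coe hK
  set L := (hfin.toFinset.filter fun i => i < C.n).toList with hL
  have hmL : ∀ {i}, i ∈ L ↔ i ∈ K ∧ i < C.n := by
    intro i
    rw [hL, Finset.mem_toList, Finset.mem_filter, Set.Finite.mem_toFinset]
  set s : List (ℕ × Bool) := L.map fun i => (i, z.getD i false) with hs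
  have hms : ∀ p ∈ s, (p.1 ∈ K ∧ p.1 < C.n) ∧ p.2 = z.getD p.1 false := by
    intro p hp
    rw [hs, List.mem_map] at hp
    obtain ⟨i, hi, rfl⟩ := hp
    exact ⟨hmL.1 hi, rfl⟩
  have hkey : ∀ i ∈ K, i < C.n → ¬ ∀ p ∈ s, p.1 ≠ i := by
    intro i hi hin h
    exact h (i, z.getD i false) (by rw [hs, List.mem_map]; exact ⟨i, hmL.2 ⟨hi, hin⟩, rfl⟩) rfl
  have hzs : assign C.n s z = z := by
    refine ext_getD (by rw [length_assign, hz]) fun i hi => ?_
    rw [length_assign] at hi
    rw [getD_assign _ _ hi]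
    unfold ov
    cases h1 : (s.find? fun p => decide (p.1 = i)) with
    | none => rfl
    | some p =>
      have h2 := List.find?_some h1
      have h3 := List.mem_of_find?_eq_some h1
      rw [decide_eq_true_eq] at h2
      rw [← h2]
      exact (hms p h3).2
  refine ⟨s, ?_, fun p hp => (hms p hp).1.2, hkey, fun R hR => ?_⟩
  · rw [hs, List.length_map, hL, Finset.length_toList]
    refine (Finset.card_filter_le _ _).trans ?_
    rw [hfin.encard_eq_coe_toFinset_card] at hK
    exact_mod_cast hK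
  · obtain ⟨hRT, hRr⟩ := trans C s R hT hR
    have hnm : ∀ x : List Bool, x.length = C.n → ∀ i < C.n, ∀ j < C.n, i ≠ j →
        ¬ R.Mutual x i j := by
      intro x hx i hi j hj hij hm
      have h1 := (hRr x hx i hi j hj hij).1 hm.1
      have h2 := (hRr x hx j hj i hi hij.symm).1 hm.2
      rcases hM _ (length_assign _ _ _) i hi j hj hij ⟨h1.2.2, h2.2.2⟩ with h3 | h3
      · exact hkey i h3 hi h1.1
      · exact hkey j h3 hj h1.2.1
    refine ⟨hnm, fun x hx y hy => ?_⟩
    have hxl : x.length = C.n := by rw [hx.1, hR.1]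
    have h1 := hsinks R hRT (by rw [hR.1]; exact hnm) x hx z (by rw [hR.1]; exact hz)
    rw [restr_cost hR hxl, restr_cost hR hz, hzs] at h1
    refine le_trans ?_ (hzmin y hy)
    have h2 := val_lt z
    rw [hz] at h2
    rw [Circuit.cost_eq, Circuit.cost_eq] at h1 ⊢
    by_contra hcon
    have h3 : val (C.out z) + 1 ≤ val (C.out (assign C.n s x)) := by omega
    have h4 := Nat.mul_le_mul_left (2 ^ C.n) h3
    have h5 : 2 ^ C.n * (2 * val (C.out (assign C.n s x))) =
      2 * (2 ^ C.n * val (C.out (assign C.n s x))) := by ring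
    have h6 : 2 ^ C.n * (2 * val (C.out z)) = 2 * (2 ^ C.n * val (C.out z)) := by ring
    rw [Nat.mul_add, Nat.mul_one] at h4
    omega

/-- finitely many bits for the mutual and for the one-way pairs: there is a solver -/
theorem easy_fin (hsinks : SinksStmt) (hR : RestrStmt) (a b : ℕ) :
    HasSolver (Circuit.Epistasis a b) := by
  refine enum hR (a + b) (Circuit.Epistasis 0 1) _ (easy1 0) fun C _ hC _ => ?_
  obtain ⟨hT, A, B, hA, hB, h⟩ := hC
  have hAB : (A ∪ B).encard ≤ ((a + b : ℕ) : ℕ∞) := by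
    refine (Set.encard_union_le A B).trans ?_
    push_cast
    exact add_le_add hA hB
  obtain ⟨s, h1, h2, h3, h4⟩ := exists_sig hsinks hT hAB fun x hx i hi j hj hij hm =>
    ((h x hx i hi j hj hij).1 hm).imp (Set.mem_union_left B) (Set.mem_union_left B)
  refine ⟨s, h1, h2, fun R hRs => ⟨?_, (h4 R hRs).2⟩⟩
  obtain ⟨hRT, hRr⟩ := trans C s R hT hRs
  refine ⟨hRT, ∅, ∅, by simp, by simp, fun x hx i hi j hj hij => ?_⟩
  rw [hRs.1] at hx hi hj
  refine ⟨fun hm => absurd hm ((h4 R hRs).1 x hx i hi j hj hij), fun ho => ?_⟩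
  exfalso
  have g1 := (hRr x hx i hi j hj hij).1 ho.1
  have g2 : ¬ C.Reacts (assign C.n s x) j i := fun g =>
    ho.2 ((hRr x hx j hj i hi hij.symm).2 ⟨g1.2.1, g1.1, g⟩)
  rcases (h _ (length_assign C.n s x) i hi j hj hij).2 ⟨g1.2.2, g2⟩ with h5 | h5
  · exact h3 i (Set.mem_union_right A h5) hi g1.1
  · exact h3 j (Set.mem_union_right A h5) hj g1.2.1

/-- finitely many bits for the mutual pairs: as without mutual pairs -/
theorem easy_iff (hsinks : SinksStmt) (hR : RestrStmt) (a : ℕ) :
    HasSolver (Circuit.Epistasis a ⊤) ↔ HasSolver (Circuit.Epistasis 0 ⊤) := by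
  refine ⟨OD.solver_mono fun C h => mono (by simp) le_rfl h, fun hs => ?_⟩
  refine enum hR a (Circuit.Epistasis 0 ⊤) _ hs fun C _ hC _ => ?_
  obtain ⟨hT, A, B, hA, hB, h⟩ := hC
  obtain ⟨s, h1, h2, h3, h4⟩ := exists_sig hsinks hT hA fun x hx i hi j hj hij hm =>
    (h x hx i hi j hj hij).1 hm
  refine ⟨s, h1, h2, fun R hRs => ⟨?_, (h4 R hRs).2⟩⟩
  obtain ⟨hRT, _⟩ := trans C s R hT hRs
  refine ⟨hRT, ∅, Set.univ, by simp, le_top, fun x hx i hi j hj hij => ?_⟩
  rw [hRs.1] at hx hi hj
  exact ⟨fun hm => absurd hm ((h4 R hRs).1 x hx i hi j hj hij),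
    fun _ => Or.inl (Set.mem_univ _)⟩

end Pool.Agent.MPa0a715.SE
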