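import Pool.Agent.Lib.MP_a0a715_lc_SE.Stmts
import Pool.Agent.Lib.MP_a0a715_lc_NB.Easy

/-!
# Without mutual pairs a local minimum is a minimum
-/

namespace Pool.Agent.MPa0a715.SE

open Pool.Agent.MPa0a715 Pool.Agent.PolyTime
open Pool.Agent.MPa0a715.NB (flip_comm)

/-- the bits in which two inputs differ -/
def df (n : ℕ) (x y : List Bool) : Finset ℕ :=
  (Finset.range n).filter fun i => x.getD i false ≠ y.getD i false

theorem mem_df {n : ℕ} {x y : List Bool} {i : ℕ} :
    i ∈ df n x y ↔ i < n ∧ x.getD i false ≠ y.getD i false := by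
  unfold df
  rw [Finset.mem_filter, Finset.mem_range]

theorem df_flip {n : ℕ} {x y : List Bool} {i : ℕ} (hx : x.length = n) (hi : i ∈ df n x y) :
    df n (flip x i) y = (df n x y).erase i := by
  ext j
  rw [Finset.mem_erase, mem_df, mem_df]
  rw [mem_df] at hi
  constructor
  · rintro ⟨h1, h2⟩
    rw [getD_flip _ _ _ (by omega)] at h2
    by_cases hij : i = j
    · subst hij
      rw [if_pos rfl] at h2
      exfalso
      revert h2 hi
      cases x.getD i false <;> cases y.getD i false <;> simp
    · rw [if_neg hij] at h2
      exact ⟨Ne.symm hij, h1, h2⟩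
  · rintro ⟨h1, h2, h3⟩
    refine ⟨h2, ?_⟩
    rw [getD_flip _ _ _ (by omega), if_neg (Ne.symm h1)]
    exact h3

theorem no_two {C : Circuit} (hT : C.TieFree)
    (hM : ∀ x : List Bool, x.length = C.n → ∀ i < C.n, ∀ j < C.n, i ≠ j → ¬ C.Mutual x i j) :
    ∀ (k : ℕ) (x y : List Bool), x.length = C.n → y.length = C.n →
      (df C.n x y).card = k + 1 → (∀ i ∈ df C.n x y, C.cost x < C.cost (flip x i)) →
      (∀ i ∈ df C.n x y, C.cost y < C.cost (flip y i)) → False := by
  intro k
  induction k with
  | zero =>
    intro x y hx hy hk h1 h2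
    obtain ⟨i, hi⟩ := Finset.card_eq_one.1 hk
    have hi' : i ∈ df C.n x y := by
      rw [hi]
      exact Finset.mem_singleton_self i
    have h3 := df_flip hx hi'
    rw [hi, Finset.erase_singleton] at h3
    have h4 : flip x i = y := by
      refine ext_getD (by rw [length_flip, hx, hy]) fun j hj => ?_
      rw [length_flip, hx] at hj
      by_contra hcon
      have : j ∈ df C.n (flip x i) y := mem_df.2 ⟨hj, hcon⟩
      rw [h3] at this
      exact absurd this (Finset.notMem_empty j)
    have h5 := h1 i hi'
    have h6 := h2 i hi'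
    rw [← h4, flip_flip] at h6
    omega
  | succ k ih =>
    intro x y hx hy hk h1 h2
    have hne : (df C.n x y).Nonempty := by
      rw [← Finset.card_pos]
      omega
    obtain ⟨i, hi, hmin⟩ := Finset.exists_min_image (df C.n x y)
      (fun i => C.cost (flip x i)) hne
    have hxi : (flip x i).length = C.n := by rw [length_flip, hx]
    have hd := df_flip hx hi
    have hin := (mem_df.1 hi).1
    have key : ∃ j ∈ (df C.n x y).erase i, ¬ C.cost (flip x i) < C.cost (flip (flip x i) j) := by
      by_contra hcon
      push Not at hcon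
      refine ih (flip x i) y hxi hy ?_ ?_ ?_
      · rw [hd, Finset.card_erase_of_mem hi, hk]
        rfl
      · rw [hd]
        exact hcon
      · rw [hd]
        exact fun j hj => h2 j (Finset.mem_of_mem_erase hj)
    obtain ⟨j, hj, h3⟩ := key
    obtain ⟨hji, hj⟩ := Finset.mem_erase.1 hj
    have hjn := (mem_df.1 hj).1
    have h4 := hT (flip x i) hxi j hjn
    have h5 := h1 i hi
    have h6 := h1 j hj
    have h7 := hmin j hj
    refine hM x hx i hin j hjn (Ne.symm hji) ⟨?_, ?_⟩
    · unfold Circuit.Reacts
      rw [flip_comm x j i]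
      omega
    · unfold Circuit.Reacts
      omega

theorem glob : SinksStmt := by
  intro C hT hM x hx
  obtain ⟨z, hz, hzmin⟩ := Set.exists_min_image {l : List Bool | l.length = C.n} C.cost
    (List.finite_length_eq Bool C.n) ⟨List.replicate C.n false, by simp⟩
  intro y hy
  refine le_trans ?_ (hzmin y hy)
  by_cases hxz : x = z
  · rw [hxz]
  · exfalso
    have hz' : z.length = C.n := hz
    have hpos : 0 < (df C.n x z).card := by
      rw [Finset.card_pos]
      by_contra hcon
      rw [Finset.not_nonempty_iff_eq_empty] at hcon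
      apply hxz
      refine ext_getD (by rw [hx.1, hz']) fun j hj => ?_
      by_contra h1
      have : j ∈ df C.n x z := mem_df.2 ⟨by rw [hx.1] at hj; exact hj, h1⟩
      rw [hcon] at this
      exact absurd this (Finset.notMem_empty j)
    refine no_two hT hM ((df C.n x z).card - 1) x z hx.1 hz' (by omega) ?_ ?_
    · intro i hi
      have h1 := (mem_df.1 hi).1
      have h2 := hx.2 i h1
      have h3 := hT x hx.1 i h1
      omega
    · intro i hi
      have h1 := (mem_df.1 hi).1
      have h2 := hzmin (flip z i) (by
        change (flip z i).length = C.n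
        rw [length_flip, hz'])
      have h3 := hT z hz' i h1
      omega

end Pool.Agent.MPa0a715.SE
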