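import Pool.Agent.Lib.MP_a0a715_lc_SE.Defs
import Pool.Agent.Lib.MP_a0a715_lc_IN.EasyIN

/-!
# The cost function of the reduction: definitions

An input of the new circuit consists of blocks of six bits, one for each input bit of the given
circuit, and of two more bits, which select one of four phases.  The cost depends only on the
phase and on the weights `w b` of the blocks.
-/

namespace Pool.Agent.MPa0a715.SE

open Pool.Agent.MPa0a715 Pool.Agent.PolyTime
open Pool.Agent.MPa0a715.IN (step)

/-- distance of the weight of a block to `{0, 6}` -/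
def tt (v : ℕ) : ℕ := min v (6 - v)

/-- the input of the given circuit for the weights `w` of the `m` blocks -/
def qq (m : ℕ) (w : ℕ → ℕ) : List Bool := (List.range m).map fun b => decide (3 ≤ w b)

/-- sum of the distances -/
def SS (m : ℕ) (w : ℕ → ℕ) : ℕ := ∑ b ∈ Finset.range m, tt (w b)

/-- first block whose weight is not `0` or `6` -/
def bo (m : ℕ) (w : ℕ → ℕ) : ℕ :=
  ((List.range m).find? fun b => decide (tt (w b) ≠ 0)).getD 0

/-- the step of local search from `q` is the flip of bit `b` -/
def ou (C : Circuit) (q : List Bool) (b : ℕ) : Bool := decide (step C q = flip q b)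

/-- the step of local search from the neighbour of `q` is the flip of bit `b` -/
def inn (C : Circuit) (q : List Bool) (b : ℕ) : Bool := ou C (flip q b) b

/-- contribution of a block -/
def ff (d : List Bool → ℕ → Bool) (m : ℕ) (w : ℕ → ℕ) (b : ℕ) : ℕ :=
  if d (qq m w) b = true then min (tt (w b)) 2 else tt (w b) - 1

/-- maximum of the contributions, which are at most `2` -/
def FF (d : List Bool → ℕ → Bool) (m : ℕ) (w : ℕ → ℕ) : ℕ :=
  if (List.range m).any (fun b => decide (2 ≤ ff d m w b)) = true then 2
  else if (List.range m).any (fun b => decide (1 ≤ ff d m w b)) = true then 1 else 0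

/-- height -/
def hh (d : List Bool → ℕ → Bool) (m : ℕ) (w : ℕ → ℕ) : ℕ := 4 + SS m w - 2 * FF d m w

/-- value of the given circuit -/
def vl (C : Circuit) (q : List Bool) : ℕ := val (C.out q)

/-- a large number -/
def bg (C : Circuit) : ℕ := 10 * 2 ^ C.outs.length

/-- a number larger than the heights -/
def rr (m : ℕ) : ℕ := 3 * m + 10

/-- cost in the first phase -/
def k1 (C : Circuit) (w : ℕ → ℕ) : ℕ :=
  if SS C.n w = 0 then 10 * vl C (qq C.n w) + 7
  else if SS C.n w = tt (w (bo C.n w)) ∧ tt (w (bo C.n w)) ≤ 2 ∧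
      ou C (qq C.n w) (bo C.n w) = true then
    10 * vl C (qq C.n w) + (7 - tt (w (bo C.n w)))
  else bg C + 3 * rr C.n + hh (ou C) C.n w

/-- cost in the second phase -/
def k2 (C : Circuit) (w : ℕ → ℕ) : ℕ :=
  if SS C.n w = tt (w (bo C.n w)) ∧ 2 ≤ tt (w (bo C.n w)) ∧
      ou C (qq C.n w) (bo C.n w) = true then
    10 * vl C (qq C.n w) + (6 - tt (w (bo C.n w)))
  else if SS C.n w = tt (w (bo C.n w)) ∧ 2 ≤ tt (w (bo C.n w)) ∧
      inn C (qq C.n w) (bo C.n w) = true then
    10 * vl C (flip (qq C.n w) (bo C.n w)) + tt (w (bo C.n w))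
  else bg C + 2 * rr C.n + hh (inn C) C.n w

/-- cost in the third phase -/
def k3 (C : Circuit) (w : ℕ → ℕ) : ℕ :=
  if SS C.n w = 0 then 10 * vl C (qq C.n w) + 9
  else if SS C.n w = tt (w (bo C.n w)) ∧ tt (w (bo C.n w)) ≤ 2 ∧
      inn C (qq C.n w) (bo C.n w) = true then
    10 * vl C (flip (qq C.n w) (bo C.n w)) + (tt (w (bo C.n w)) - 1)
  else bg C + SS C.n w

/-- cost in the fourth phase -/
def k4 (C : Circuit) (w : ℕ → ℕ) : ℕ :=
  if SS C.n w = 0 then 10 * vl C (qq C.n w) + 8 else bg C + rr C.n + SS C.n w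

/-- the cost -/
def kap (C : Circuit) (p r : Bool) (w : ℕ → ℕ) : ℕ :=
  if p = true then (if r = true then k3 C w else k4 C w)
  else (if r = true then k2 C w else k1 C w)

/-- the weights of the blocks -/
def wt (x : List Bool) (b : ℕ) : ℕ :=
  (x.getD (6 * b) false).toNat + (x.getD (6 * b + 1) false).toNat +
  (x.getD (6 * b + 2) false).toNat + (x.getD (6 * b + 3) false).toNat +
  (x.getD (6 * b + 4) false).toNat + (x.getD (6 * b + 5) false).toNat

/-- the cost as a function of the input -/
def kx (C : Circuit) (x : List Bool) : ℕ :=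
  kap C (x.getD (6 * C.n) false) (x.getD (6 * C.n + 1) false) (wt x)

end Pool.Agent.MPa0a715.SE
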