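import Pool.Agent.Lib.MP_a0a715_lc_SE.HDef
import Pool.Agent.Lib.MP_a0a715_lc_NB.Inj

/-!
# The cost function of the reduction: orientation of the data bits
-/

namespace Pool.Agent.MPa0a715.SE

open Pool.Agent.MPa0a715 Pool.Agent.PolyTime
open Pool.Agent.MPa0a715.IN (step step_cases length_step val_lt_cost)
open Pool.Agent.MPa0a715.NB (flip_ne flip_comm)

theorem tt_le (v : ℕ) : tt v ≤ 3 := by
  unfold tt
  omega

theorem length_qq (m : ℕ) (w : ℕ → ℕ) : (qq m w).length = m := by
  unfold qq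
  simp

theorem getD_qq {m b : ℕ} (w : ℕ → ℕ) (hb : b < m) :
    (qq m w).getD b false = decide (3 ≤ w b) := by
  unfold qq
  rw [List.getD_eq_getElem _ _ (by simpa using hb), List.getElem_map, List.getElem_range]

/-! ### sums -/

theorem SS_zero {m : ℕ} {w : ℕ → ℕ} : SS m w = 0 ↔ ∀ b < m, tt (w b) = 0 := by
  unfold SS
  rw [Finset.sum_eq_zero_iff]
  simp only [Finset.mem_range]

theorem le_SS {m b : ℕ} (w : ℕ → ℕ) (hb : b < m) : tt (w b) ≤ SS m w :=
  Finset.single_le_sum (f := fun b => tt (w b)) (fun _ _ => Nat.zero_le _)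
    (Finset.mem_range.2 hb)

theorem le_SS2 {m b c : ℕ} (w : ℕ → ℕ) (hb : b < m) (hc : c < m) (h : b ≠ c) :
    tt (w b) + tt (w c) ≤ SS m w := by
  unfold SS
  rw [← Finset.add_sum_erase _ _ (Finset.mem_range.2 hb)]
  refine Nat.add_le_add_left ?_ _
  exact Finset.single_le_sum (f := fun b => tt (w b)) (fun _ _ => Nat.zero_le _)
    (Finset.mem_erase.2 ⟨h.symm, Finset.mem_range.2 hc⟩)

theorem SS_le (m : ℕ) (w : ℕ → ℕ) : SS m w ≤ 3 * m := by
  unfold SS
  refine (Finset.sum_le_card_nsmul _ _ 3 fun b _ => tt_le _).trans ?_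
  rw [Finset.card_range, smul_eq_mul, Nat.mul_comm]

/-- exactly one block is not at a corner -/
structure Sg (m : ℕ) (w : ℕ → ℕ) (b : ℕ) : Prop where
  hb : b < m
  pos : tt (w b) ≠ 0
  oth : ∀ c < m, c ≠ b → tt (w c) = 0

/-- at least two blocks are not at a corner -/
def Mu (m : ℕ) (w : ℕ → ℕ) : Prop :=
  ∃ b < m, ∃ c < m, b ≠ c ∧ tt (w b) ≠ 0 ∧ tt (w c) ≠ 0

theorem cls (m : ℕ) (w : ℕ → ℕ) : SS m w = 0 ∨ (∃ b, Sg m w b) ∨ Mu m w := by
  by_cases h : SS m w = 0
  · exact Or.inl h
  · rw [SS_zero] at h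
    push Not at h
    obtain ⟨b, hb, h1⟩ := h
    by_cases h2 : ∀ c < m, c ≠ b → tt (w c) = 0
    · exact Or.inr (Or.inl ⟨b, hb, h1, h2⟩)
    · push Not at h2
      obtain ⟨c, hc, h3, h4⟩ := h2
      exact Or.inr (Or.inr ⟨b, hb, c, hc, h3.symm, h1, h4⟩)

section
variable {m : ℕ} {w w' : ℕ → ℕ} {b : ℕ}

theorem Sg.ss (h : Sg m w b) : SS m w = tt (w b) :=
  Finset.sum_eq_single_of_mem (f := fun b => tt (w b)) b (Finset.mem_range.2 h.hb)
    fun c hc hcb => h.oth c (Finset.mem_range.1 hc) hcb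

theorem bo_spec (h : SS m w ≠ 0) : bo m w < m ∧ tt (w (bo m w)) ≠ 0 := by
  unfold bo
  cases hf : (List.range m).find? fun b => decide (tt (w b) ≠ 0) with
  | none =>
    exfalso
    apply h
    rw [SS_zero]
    intro b hb
    rw [List.find?_eq_none] at hf
    have := hf b (List.mem_range.2 hb)
    rw [decide_eq_true_eq, not_not] at this
    exact this
  | some c =>
    have h1 := List.find?_some hf
    have h2 := List.mem_of_find?_eq_some hf
    rw [decide_eq_true_eq] at h1
    exact ⟨List.mem_range.1 h2, h1⟩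

theorem Sg.bo (h : Sg m w b) : bo m w = b := by
  have h1 : SS m w ≠ 0 := by
    rw [h.ss]
    exact h.pos
  obtain ⟨h2, h3⟩ := bo_spec h1
  by_contra hcon
  exact h3 (h.oth _ h2 hcon)

theorem Mu.ne (h : Mu m w) : SS m w ≠ 0 ∧ SS m w ≠ tt (w (SE.bo m w)) := by
  obtain ⟨b, hb, c, hc, hbc, h1, h2⟩ := h
  have h3 := le_SS w hb
  have h4 : SS m w ≠ 0 := by omega
  refine ⟨h4, fun h5 => ?_⟩
  obtain ⟨h6, _⟩ := bo_spec h4
  by_cases h7 : SE.bo m w = b
  · have h8 := le_SS2 w h6 hc (by rw [h7]; exact hbc)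
    omega
  · have h8 := le_SS2 w h6 hb h7
    omega

/-! ### maximum of the contributions -/

theorem ff_le_two (d : List Bool → ℕ → Bool) (m : ℕ) (w : ℕ → ℕ) (b : ℕ) : ff d m w b ≤ 2 := by
  have := tt_le (w b)
  unfold ff
  split_ifs <;> omega

theorem FF_le_two (d : List Bool → ℕ → Bool) (m : ℕ) (w : ℕ → ℕ) : FF d m w ≤ 2 := by
  unfold FF
  split_ifs <;> omega

theorem ff_le_FF (d : List Bool → ℕ → Bool) (w : ℕ → ℕ) (hb : b < m) :
    ff d m w b ≤ FF d m w := by
  have h1 := ff_le_two d m w b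
  unfold FF
  split_ifs with h2 h3
  · exact h1
  · rw [List.any_eq_true] at h2
    push Not at h2
    have := h2 b (List.mem_range.2 hb)
    rw [Ne, decide_eq_true_eq] at this
    omega
  · rw [List.any_eq_true] at h3
    push Not at h3
    have := h3 b (List.mem_range.2 hb)
    rw [Ne, decide_eq_true_eq] at this
    omega

theorem FF_le (d : List Bool → ℕ → Bool) (w : ℕ → ℕ) {k : ℕ}
    (h : ∀ b < m, ff d m w b ≤ k) : FF d m w ≤ k := by
  unfold FF
  split_ifs with h2 h3
  · rw [List.any_eq_true] at h2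
    obtain ⟨b, hb, h2⟩ := h2
    rw [decide_eq_true_eq] at h2
    exact h2.trans (h b (List.mem_range.1 hb))
  · rw [List.any_eq_true] at h3
    obtain ⟨b, hb, h3⟩ := h3
    rw [decide_eq_true_eq] at h3
    exact h3.trans (h b (List.mem_range.1 hb))
  · exact Nat.zero_le _

theorem hh_add (d : List Bool → ℕ → Bool) (m : ℕ) (w : ℕ → ℕ) :
    hh d m w + 2 * FF d m w = 4 + SS m w := by
  have := FF_le_two d m w
  unfold hh
  omega

theorem FF_zero (d : List Bool → ℕ → Bool) (h : SS m w = 0) : FF d m w = 0 := by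
  refine Nat.le_zero.1 (FF_le d w fun b hb => ?_)
  unfold ff
  rw [SS_zero.1 h b hb]
  split_ifs <;> omega

theorem Sg.ff (d : List Bool → ℕ → Bool) (h : Sg m w b) : FF d m w = ff d m w b := by
  refine le_antisymm (FF_le d w fun c hc => ?_) (ff_le_FF d w h.hb)
  by_cases hcb : c = b
  · rw [hcb]
  · have : SE.ff d m w c = 0 := by
      unfold SE.ff
      rw [h.oth c hc hcb]
      split_ifs <;> omega
    rw [this]
    exact Nat.zero_le _

/-! ### one step up -/

/-- one block moves away from its corner by one -/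
structure Up (m b : ℕ) (w w' : ℕ → ℕ) : Prop where
  hb : b < m
  ne : ∀ c, c ≠ b → w' c = w c
  ht : tt (w' b) = tt (w b) + 1
  hq : qq m w' = qq m w ∨ (tt (w' b) = 3 ∧ qq m w' = flip (qq m w) b)

theorem Up.ss (h : Up m b w w') : SS m w' = SS m w + 1 := by
  unfold SS
  rw [← Finset.add_sum_erase _ _ (Finset.mem_range.2 h.hb),
    ← Finset.add_sum_erase (Finset.range m) (fun b => tt (w b)) (Finset.mem_range.2 h.hb)]
  have h1 : ∑ c ∈ (Finset.range m).erase b, tt (w' c) =
      ∑ c ∈ (Finset.range m).erase b, tt (w c) :=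
    Finset.sum_congr rfl fun c hc => by rw [h.ne c (Finset.mem_erase.1 hc).1]
  rw [h1, h.ht]
  omega

theorem Up.le (h : Up m b w w') (c : ℕ) : tt (w c) ≤ tt (w' c) := by
  by_cases hc : c = b
  · rw [hc, h.ht]
    omega
  · rw [h.ne c hc]

theorem Up.ffne (d : List Bool → ℕ → Bool) (h : Up m b w w') (hq : qq m w' = qq m w) {c : ℕ}
    (hc : c ≠ b) : ff d m w' c = ff d m w c := by
  unfold ff
  rw [hq, h.ne c hc]

theorem Up.FF (d : List Bool → ℕ → Bool) (h : Up m b w w') :
    FF d m w ≤ FF d m w' ∧ FF d m w' ≤ FF d m w + 1 := by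
  have h1 := ff_le_FF d w h.hb
  have h2 := ff_le_FF d w' h.hb
  have h3 := h.ht
  have h4 := tt_le (w' b)
  rcases h.hq with hq | ⟨ht, hq⟩
  · have e : ff d m w b ≤ ff d m w' b ∧ ff d m w' b ≤ ff d m w b + 1 := by
      unfold ff
      rw [hq]
      split_ifs <;> omega
    constructor
    · refine FF_le d w fun c hc => ?_
      by_cases hcb : c = b
      · rw [hcb]
        omega
      · rw [← h.ffne d hq hcb]
        exact ff_le_FF d w' hc
    · refine FF_le d w' fun c hc => ?_
      by_cases hcb : c = b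
      · rw [hcb]
        omega
      · rw [h.ffne d hq hcb]
        exact (ff_le_FF d w hc).trans (Nat.le_succ _)
  · have e1 : 1 ≤ ff d m w b := by
      unfold ff
      split_ifs <;> omega
    have e2 : 2 ≤ ff d m w' b := by
      unfold ff
      split_ifs <;> omega
    have h5 := FF_le_two d m w
    have h6 := FF_le_two d m w'
    omega

theorem Up.hh (d : List Bool → ℕ → Bool) (h : Up m b w w') :
    hh d m w' = hh d m w + 1 ∨ hh d m w = hh d m w' + 1 := by
  have h1 := hh_add d m w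
  have h2 := hh_add d m w'
  have h3 := h.FF d
  have h4 := h.ss
  omega

theorem Up.mu (h : Up m b w w') (hw : Mu m w) : Mu m w' := by
  obtain ⟨b₁, hb₁, c₁, hc₁, h1, h2, h3⟩ := hw
  have h4 := h.le b₁
  have h5 := h.le c₁
  exact ⟨b₁, hb₁, c₁, hc₁, h1, by omega, by omega⟩

end

/-! ### designated steps -/

section
variable {C : Circuit} {q : List Bool} {b c : ℕ}

theorem flip_inj {q : List Bool} {b c : ℕ} (hb : b < q.length) (h : flip q b = flip q c) :
    b = c := by
  by_contra hcon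
  have h1 := getD_flip q b b hb
  have h2 := getD_flip q c b hb
  rw [if_pos rfl] at h1
  rw [if_neg (Ne.symm hcon)] at h2
  rw [h, h2] at h1
  revert h1
  cases q.getD b false <;> simp

theorem ou_lt (hq : q.length = C.n) (hb : b < C.n) (h : ou C q b = true) :
    vl C (flip q b) < vl C q := by
  unfold ou at h
  rw [decide_eq_true_eq] at h
  unfold vl
  rw [val_lt_cost]
  rcases step_cases C q with ⟨h1, _⟩ | ⟨i, _, h1, h2⟩
  · rw [h1] at h
    exact absurd h.symm (flip_ne (by omega))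
  · rw [← h, h1]
    exact h2

theorem inn_lt (hq : q.length = C.n) (hb : b < C.n) (h : inn C q b = true) :
    vl C q < vl C (flip q b) := by
  have := ou_lt (q := flip q b) (by rw [length_flip, hq]) hb h
  rwa [flip_flip] at this

theorem ou_uniq (hq : q.length = C.n) (hb : b < C.n) (h : ou C q b = true)
    (h' : ou C q c = true) : b = c := by
  unfold ou at h h'
  rw [decide_eq_true_eq] at h h'
  exact flip_inj (by omega) (h.symm.trans h')

theorem ou_flip : ou C (flip q b) b = inn C q b := rfl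

theorem inn_flip : inn C (flip q b) b = ou C q b := by
  unfold inn
  rw [flip_flip]

theorem vl_lt (C : Circuit) (q : List Bool) : 10 * vl C q + 9 < bg C := by
  have h1 := val_lt (C.out q)
  have h2 : (C.out q).length = C.outs.length := by
    unfold Circuit.out
    rw [List.length_map]
  rw [h2] at h1
  unfold vl bg
  omega

end

/-! ### the cost for the three kinds of weights -/

section
variable {C : Circuit} {w : ℕ → ℕ} {b : ℕ}

theorem k1_zero (h : SS C.n w = 0) : k1 C w = 10 * vl C (qq C.n w) + 7 := if_pos h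

theorem k2_zero (h : SS C.n w = 0) : k2 C w = bg C + 2 * rr C.n + hh (inn C) C.n w := by
  unfold k2
  rw [if_neg (by omega), if_neg (by omega)]

theorem k3_zero (h : SS C.n w = 0) : k3 C w = 10 * vl C (qq C.n w) + 9 := if_pos h

theorem k4_zero (h : SS C.n w = 0) : k4 C w = 10 * vl C (qq C.n w) + 8 := if_pos h

theorem k1_sg (h : Sg C.n w b) : k1 C w =
    if tt (w b) ≤ 2 ∧ ou C (qq C.n w) b = true then 10 * vl C (qq C.n w) + (7 - tt (w b))
    else bg C + 3 * rr C.n + hh (ou C) C.n w := by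
  unfold k1
  rw [h.bo, h.ss, if_neg h.pos]
  simp only [true_and]

theorem k2_sg (h : Sg C.n w b) : k2 C w =
    if 2 ≤ tt (w b) ∧ ou C (qq C.n w) b = true then 10 * vl C (qq C.n w) + (6 - tt (w b))
    else if 2 ≤ tt (w b) ∧ inn C (qq C.n w) b = true then
      10 * vl C (flip (qq C.n w) b) + tt (w b)
    else bg C + 2 * rr C.n + hh (inn C) C.n w := by
  unfold k2
  rw [h.bo, h.ss]
  simp only [true_and]

theorem k3_sg (h : Sg C.n w b) : k3 C w =
    if tt (w b) ≤ 2 ∧ inn C (qq C.n w) b = true then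
      10 * vl C (flip (qq C.n w) b) + (tt (w b) - 1)
    else bg C + tt (w b) := by
  unfold k3
  rw [h.bo, h.ss, if_neg h.pos]
  simp only [true_and]

theorem k4_sg (h : Sg C.n w b) : k4 C w = bg C + rr C.n + tt (w b) := by
  unfold k4
  rw [h.ss, if_neg h.pos]

theorem k1_mu (h : Mu C.n w) : k1 C w = bg C + 3 * rr C.n + hh (ou C) C.n w := by
  unfold k1
  rw [if_neg h.ne.1, if_neg fun h' => h.ne.2 h'.1]

theorem k2_mu (h : Mu C.n w) : k2 C w = bg C + 2 * rr C.n + hh (inn C) C.n w := by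
  unfold k2
  rw [if_neg fun h' => h.ne.2 h'.1, if_neg fun h' => h.ne.2 h'.1]

theorem k3_mu (h : Mu C.n w) : k3 C w = bg C + SS C.n w := by
  unfold k3
  rw [if_neg h.ne.1, if_neg fun h' => h.ne.2 h'.1]

theorem k4_mu (h : Mu C.n w) : k4 C w = bg C + rr C.n + SS C.n w := if_neg h.ne.1

end

end Pool.Agent.MPa0a715.SE
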