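import Pool.Agent.Lib.MP_a0a715_lc_SE.HMath

/-!
# The cost function of the reduction: the cost and the height change in the same direction
-/

namespace Pool.Agent.MPa0a715.SE

open Pool.Agent.MPa0a715 Pool.Agent.PolyTime

/-- height in the phases -/
def ph (C : Circuit) (p r : Bool) (w : ℕ → ℕ) : ℕ :=
  if p = true then SS C.n w else if r = true then hh (inn C) C.n w else hh (ou C) C.n w

section
variable {C : Circuit} {w w' : ℕ → ℕ} {b : ℕ}

theorem ori1 (h : Up C.n b w w') :
    (k1 C w' < k1 C w ∧ hh (ou C) C.n w' + 1 = hh (ou C) C.n w) ∨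
    (k1 C w < k1 C w' ∧ hh (ou C) C.n w + 1 = hh (ou C) C.n w') := by
  have hv := vl_lt C (qq C.n w)
  have ht := h.ht
  have ht3 := tt_le (w' b)
  have hs := h.ss
  have a1 := hh_add (ou C) C.n w
  have a2 := hh_add (ou C) C.n w'
  have hu := h.hh (ou C)
  rcases cls C.n w with hz | ⟨c, hc⟩ | hm
  · have hb0 := SS_zero.1 hz b h.hb
    have hq : qq C.n w' = qq C.n w := h.hq.resolve_right (by omega)
    have h' : Sg C.n w' b := ⟨h.hb, by omega, fun c hc hcb => by
      rw [h.ne c hcb]
      exact SS_zero.1 hz c hc⟩
    have f1 := FF_zero (ou C) hz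
    have f2 := h'.ff (ou C)
    unfold ff at f2
    rw [hq] at f2
    rw [k1_zero hz, k1_sg h', hq]
    cases ho : ou C (qq C.n w) b <;>
      simp only [ho, Bool.false_eq_true, and_false, and_true, if_false, if_true] at f2 ⊢
    · omega
    · split_ifs <;> omega
  · by_cases hcb : c = b
    · subst hcb
      have hp := hc.pos
      have h' : Sg C.n w' c := ⟨h.hb, by omega, fun e he hec => by
        rw [h.ne e hec]
        exact hc.oth e he hec⟩
      have f1 := hc.ff (ou C)
      have f2 := h'.ff (ou C)
      have s1 := hc.ss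
      unfold ff at f1 f2
      rw [k1_sg hc, k1_sg h']
      rcases h.hq with hq | ⟨h3, hq⟩
      · rw [hq] at f2 ⊢
        cases ho : ou C (qq C.n w) c <;>
          simp only [ho, Bool.false_eq_true, and_false, and_true, if_false, if_true]
            at f1 f2 ⊢
        · omega
        · split_ifs <;> omega
      · rw [if_neg (c := tt (w' c) ≤ 2 ∧ _) (by omega)]
        have f3 : FF (ou C) C.n w' = 2 := by
          rw [f2]
          split_ifs <;> omega
        cases ho : ou C (qq C.n w) c <;>
          simp only [ho, Bool.false_eq_true, and_false, and_true, if_false, if_true]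
            at f1 ⊢
        · omega
        · split_ifs <;> omega
    · have hb0 := hc.oth b h.hb (Ne.symm hcb)
      have hq : qq C.n w' = qq C.n w := h.hq.resolve_right (by omega)
      have h' : Mu C.n w' := ⟨c, hc.hb, b, h.hb, hcb, by
        rw [h.ne c hcb]
        exact hc.pos, by omega⟩
      rw [k1_sg hc, k1_mu h']
      split_ifs with h1
      · have f0 := h.FF (ou C)
        have f1 : FF (ou C) C.n w' ≤ FF (ou C) C.n w := by
          refine FF_le _ _ fun e he => ?_
          by_cases heb : e = b
          · have : ff (ou C) C.n w' e = 0 := by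
              unfold ff
              rw [if_neg, heb]
              · omega
              · rw [hq, heb]
                intro h2
                exact hcb (ou_uniq (length_qq _ _) hc.hb h1.2 h2)
            omega
          · rw [h.ffne _ hq heb]
            exact ff_le_FF _ _ he
        omega
      · omega
  · rw [k1_mu hm, k1_mu (h.mu hm)]
    omega

theorem ori2 (h : Up C.n b w w') :
    (k2 C w' < k2 C w ∧ hh (inn C) C.n w' + 1 = hh (inn C) C.n w) ∨
    (k2 C w < k2 C w' ∧ hh (inn C) C.n w + 1 = hh (inn C) C.n w') := by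
  have hv := vl_lt C (qq C.n w)
  have hv2 := vl_lt C (flip (qq C.n w) b)
  have ht := h.ht
  have ht3 := tt_le (w' b)
  have hs := h.ss
  have a1 := hh_add (inn C) C.n w
  have a2 := hh_add (inn C) C.n w'
  have hu := h.hh (inn C)
  rcases cls C.n w with hz | ⟨c, hc⟩ | hm
  · have hb0 := SS_zero.1 hz b h.hb
    have hq : qq C.n w' = qq C.n w := h.hq.resolve_right (by omega)
    have h' : Sg C.n w' b := ⟨h.hb, by omega, fun c hc hcb => by
      rw [h.ne c hcb]
      exact SS_zero.1 hz c hc⟩
    rw [k2_zero hz, k2_sg h', if_neg (by omega), if_neg (by omega)]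
    omega
  · by_cases hcb : c = b
    · subst hcb
      have hp := hc.pos
      have h' : Sg C.n w' c := ⟨h.hb, by omega, fun e he hec => by
        rw [h.ne e hec]
        exact hc.oth e he hec⟩
      have f1 := hc.ff (inn C)
      have f2 := h'.ff (inn C)
      have s1 := hc.ss
      have e1 : ou C (qq C.n w) c = true → vl C (flip (qq C.n w) c) < vl C (qq C.n w) :=
        ou_lt (length_qq _ _) h.hb
      have e2 : inn C (qq C.n w) c = true → vl C (qq C.n w) < vl C (flip (qq C.n w) c) :=
        inn_lt (length_qq _ _) h.hb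
      unfold ff at f1 f2
      rw [k2_sg hc, k2_sg h']
      rcases h.hq with hq | ⟨h3, hq⟩
      · rw [hq] at f2 ⊢
        cases ho : ou C (qq C.n w) c <;> cases hi : inn C (qq C.n w) c <;>
          simp only [ho, hi, Bool.false_eq_true, and_false, and_true, if_false, if_true,
            forall_const, false_imp_iff] at f1 f2 e1 e2 ⊢ <;>
          first | omega | (split_ifs <;> omega)
      · rw [hq, inn_flip] at f2 ⊢
        rw [ou_flip, flip_flip]
        have f3 : FF (inn C) C.n w' = 2 := by
          rw [f2]
          split_ifs <;> omega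
        cases ho : ou C (qq C.n w) c <;> cases hi : inn C (qq C.n w) c <;>
          simp only [ho, hi, Bool.false_eq_true, and_false, and_true, if_false, if_true,
            forall_const, false_imp_iff] at f1 e1 e2 ⊢ <;>
          first | omega | (split_ifs <;> omega)
    · have hb0 := hc.oth b h.hb (Ne.symm hcb)
      have hq : qq C.n w' = qq C.n w := h.hq.resolve_right (by omega)
      have h' : Mu C.n w' := ⟨c, hc.hb, b, h.hb, hcb, by
        rw [h.ne c hcb]
        exact hc.pos, by omega⟩
      have hv3 := vl_lt C (flip (qq C.n w) c)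
      rw [k2_sg hc, k2_mu h']
      have f0 := h.FF (inn C)
      have f1 : 2 ≤ tt (w c) → FF (inn C) C.n w' ≤ FF (inn C) C.n w := by
        intro h1
        have g0 := ff_le_FF (inn C) w hc.hb
        have g1 : 1 ≤ ff (inn C) C.n w c := by
          unfold ff
          split_ifs <;> omega
        refine FF_le _ _ fun e he => ?_
        by_cases heb : e = b
        · have : ff (inn C) C.n w' e ≤ 1 := by
            unfold ff
            rw [heb]
            split_ifs <;> omega
          omega
        · rw [h.ffne _ hq heb]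
          exact ff_le_FF _ _ he
      have t3 := tt_le (w c)
      split_ifs with h1 h2
      · have := f1 h1.1
        omega
      · have := f1 h2.1
        omega
      · omega
  · rw [k2_mu hm, k2_mu (h.mu hm)]
    omega

theorem ori3 (h : Up C.n b w w') : k3 C w < k3 C w' := by
  have hv := vl_lt C (qq C.n w)
  have ht := h.ht
  have ht3 := tt_le (w' b)
  have hs := h.ss
  rcases cls C.n w with hz | ⟨c, hc⟩ | hm
  · have hb0 := SS_zero.1 hz b h.hb
    have hq : qq C.n w' = qq C.n w := h.hq.resolve_right (by omega)
    have h' : Sg C.n w' b := ⟨h.hb, by omega, fun c hc hcb => by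
      rw [h.ne c hcb]
      exact SS_zero.1 hz c hc⟩
    have e2 : inn C (qq C.n w) b = true → vl C (qq C.n w) < vl C (flip (qq C.n w) b) :=
      inn_lt (length_qq _ _) h.hb
    rw [k3_zero hz, k3_sg h', hq]
    split_ifs with h1
    · have := e2 h1.2
      omega
    · omega
  · have hv3 := vl_lt C (flip (qq C.n w) c)
    by_cases hcb : c = b
    · subst hcb
      have hp := hc.pos
      have h' : Sg C.n w' c := ⟨h.hb, by omega, fun e he hec => by
        rw [h.ne e hec]
        exact hc.oth e he hec⟩
      rw [k3_sg hc, k3_sg h']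
      rcases h.hq with hq | ⟨h3, hq⟩
      · rw [hq]
        cases hi : inn C (qq C.n w) c <;>
          simp only [Bool.false_eq_true, and_false, and_true, if_false]
        · omega
        · split_ifs <;> omega
      · rw [if_neg (c := tt (w' c) ≤ 2 ∧ _) (by omega)]
        split_ifs <;> omega
    · have h' : Mu C.n w' := ⟨c, hc.hb, b, h.hb, hcb, by
        rw [h.ne c hcb]
        exact hc.pos, by omega⟩
      have s1 := hc.ss
      have t3 := tt_le (w c)
      rw [k3_sg hc, k3_mu h']
      split_ifs <;> omega
  · rw [k3_mu hm, k3_mu (h.mu hm)]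
    omega

theorem ori4 (h : Up C.n b w w') : k4 C w < k4 C w' := by
  have hv := vl_lt C (qq C.n w)
  have hs := h.ss
  unfold k4
  split_ifs <;> omega

/-- the cost and the height change in the same direction -/
theorem orient (p r : Bool) (h : Up C.n b w w') :
    (kap C p r w' < kap C p r w ∧ ph C p r w' + 1 = ph C p r w) ∨
    (kap C p r w < kap C p r w' ∧ ph C p r w + 1 = ph C p r w') := by
  unfold kap ph
  cases p <;> cases r <;> simp only [Bool.false_eq_true, if_false, if_true]
  · exact ori1 h
  · exact ori2 h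
  · exact Or.inr ⟨ori4 h, h.ss.symm⟩
  · exact Or.inr ⟨ori3 h, h.ss.symm⟩

end

/-! ### neighbouring phases -/

section
variable (C : Circuit) (w : ℕ → ℕ)

theorem hh_lt (d : List Bool → ℕ → Bool) : hh d C.n w < rr C.n := by
  have h1 := SS_le C.n w
  unfold hh rr
  omega

/-- the second phase, when the first phase is not normal -/
theorem k12 : k1 C w ≠ k2 C w ∧ (SS C.n w ≠ 0 → (¬ ∃ b, Sg C.n w b ∧ tt (w b) ≤ 1 ∧
    ou C (qq C.n w) b = true) → k2 C w < k1 C w) := by
  have hv := vl_lt C (qq C.n w)
  have h1 := hh_lt C w (inn C)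
  have h2 : 2 ≤ rr C.n := by
    unfold rr
    omega
  rcases cls C.n w with hz | ⟨c, hc⟩ | hm
  · rw [k1_zero hz, k2_zero hz]
    exact ⟨by omega, fun h => absurd hz h⟩
  · have hv3 := vl_lt C (flip (qq C.n w) c)
    have e1 : ou C (qq C.n w) c = true → vl C (flip (qq C.n w) c) < vl C (qq C.n w) :=
      ou_lt (length_qq _ _) hc.hb
    have e2 : inn C (qq C.n w) c = true → vl C (qq C.n w) < vl C (flip (qq C.n w) c) :=
      inn_lt (length_qq _ _) hc.hb
    have t3 := tt_le (w c)
    have tp := hc.pos
    rw [k1_sg hc, k2_sg hc]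
    refine ⟨?_, fun _ h3 => ?_⟩
    · cases ho : ou C (qq C.n w) c <;> cases hi : inn C (qq C.n w) c <;>
        simp only [ho, hi, Bool.false_eq_true, and_false, and_true, if_false,
          forall_const, false_imp_iff] at e1 e2 ⊢ <;>
        first | omega | (split_ifs <;> omega)
    have h4 : ¬ (tt (w c) ≤ 1 ∧ ou C (qq C.n w) c = true) := fun h => h3 ⟨c, hc, h⟩
    cases ho : ou C (qq C.n w) c <;> cases hi : inn C (qq C.n w) c <;>
      simp only [ho, hi, Bool.false_eq_true, and_false, and_true, if_false,
        forall_const, false_imp_iff] at e1 e2 h4 ⊢ <;>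
        first | omega | (split_ifs <;> omega)
  · rw [k1_mu hm, k2_mu hm]
    exact ⟨by omega, fun _ _ => by omega⟩

/-- the third phase, when the second phase is not normal -/
theorem k23 : k2 C w ≠ k3 C w ∧ ((¬ ∃ b, Sg C.n w b ∧ 2 ≤ tt (w b) ∧
    (ou C (qq C.n w) b = true ∨ (tt (w b) = 3 ∧ inn C (qq C.n w) b = true))) →
      k3 C w < k2 C w) := by
  have hv := vl_lt C (qq C.n w)
  have h2 : SS C.n w < rr C.n := by
    have h1 := SS_le C.n w
    unfold rr
    omega
  rcases cls C.n w with hz | ⟨c, hc⟩ | hm
  · rw [k3_zero hz, k2_zero hz]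
    exact ⟨by omega, fun _ => by omega⟩
  · have hv3 := vl_lt C (flip (qq C.n w) c)
    have e1 : ou C (qq C.n w) c = true → vl C (flip (qq C.n w) c) < vl C (qq C.n w) :=
      ou_lt (length_qq _ _) hc.hb
    have e2 : inn C (qq C.n w) c = true → vl C (qq C.n w) < vl C (flip (qq C.n w) c) :=
      inn_lt (length_qq _ _) hc.hb
    have t3 := tt_le (w c)
    have tp := hc.pos
    have s1 := hc.ss
    rw [k2_sg hc, k3_sg hc]
    constructor
    · cases ho : ou C (qq C.n w) c <;> cases hi : inn C (qq C.n w) c <;>
        simp only [ho, hi, Bool.false_eq_true, and_false, and_true, if_false,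
          forall_const, false_imp_iff] at e1 e2 ⊢ <;>
        first | omega | (split_ifs <;> omega)
    · intro h3
      have h4 : ¬ (2 ≤ tt (w c) ∧ ou C (qq C.n w) c = true) := fun h =>
        h3 ⟨c, hc, h.1, Or.inl h.2⟩
      have h5 : ¬ (tt (w c) = 3 ∧ inn C (qq C.n w) c = true) := fun h =>
        h3 ⟨c, hc, by omega, Or.inr h⟩
      rw [if_neg h4]
      cases hi : inn C (qq C.n w) c <;>
        simp only [hi, Bool.false_eq_true, and_false, and_true, if_false] at h5 ⊢
      · omega
      · split_ifs <;> omega
  · rw [k3_mu hm, k2_mu hm]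
    exact ⟨by omega, fun _ => by omega⟩

theorem k43 : k4 C w ≠ k3 C w ∧ (SS C.n w ≠ 0 → k3 C w < k4 C w) := by
  have hv := vl_lt C (qq C.n w)
  have h2 : 2 ≤ rr C.n := by
    unfold rr
    omega
  rcases cls C.n w with hz | ⟨c, hc⟩ | hm
  · rw [k3_zero hz, k4_zero hz]
    exact ⟨by omega, fun h => absurd hz h⟩
  · have hv3 := vl_lt C (flip (qq C.n w) c)
    have t3 := tt_le (w c)
    rw [k3_sg hc, k4_sg hc]
    constructor
    · split_ifs <;> omega
    · intro _
      split_ifs <;> omega
  · rw [k3_mu hm, k4_mu hm]
    exact ⟨by omega, fun _ => by omega⟩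

theorem k41 : k4 C w ≠ k1 C w ∧ (SS C.n w = 0 → k1 C w < k4 C w ∧ k4 C w < k3 C w) := by
  have hv := vl_lt C (qq C.n w)
  have h2 : SS C.n w < rr C.n := by
    have h1 := SS_le C.n w
    unfold rr
    omega
  rcases cls C.n w with hz | ⟨c, hc⟩ | hm
  · rw [k3_zero hz, k4_zero hz, k1_zero hz]
    exact ⟨by omega, fun _ => by omega⟩
  · have s1 := hc.ss
    have tp := hc.pos
    rw [k1_sg hc, k4_sg hc]
    refine ⟨?_, fun h => by omega⟩
    split_ifs <;> omega
  · rw [k1_mu hm, k4_mu hm]
    exact ⟨by omega, fun h => absurd h hm.ne.1⟩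

end

end Pool.Agent.MPa0a715.SE
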