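import Pool.Agent.Lib.MP_a0a715_lc_SE.HDef
import Pool.Agent.Lib.MP_a0a715_lc_WM.RedPT

/-!
# The cost function of the reduction is computed in polynomial time
-/

namespace Pool.Agent.MPa0a715.SE

open Pool.Agent.MPa0a715 Pool.Agent.PolyTime
open Pool.Agent.MPa0a715.IN (step ptime_step)
open Pool.Agent.MPa0a715.WM.A

variable {α : Type} [Enc α]

theorem ptime_tt {f : α → ℕ} (hf : PTime f) : PTime (fun a => tt (f a)) :=
  (PTime.iteP (PTime.le hf ((PTime.const 6).sub hf)) hf ((PTime.const 6).sub hf)).of_eq fun a => by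
    unfold tt
    rw [Nat.min_def]

theorem ptime_qq {m : α → ℕ} {w : α → ℕ → ℕ} (hm : PU m) (hw : PTime₂ w) :
    PTime (fun a => qq (m a) (w a)) :=
  PTime.map (g := fun (a : α) (b : ℕ) => decide (3 ≤ w a b)) hm.range
    (PTime.le (PTime.const 3) hw)

theorem SS_eq (m : ℕ) (w : ℕ → ℕ) : SS m w =
    ((List.range m).filter fun b => decide (1 ≤ tt (w b))).length +
    ((List.range m).filter fun b => decide (2 ≤ tt (w b))).length +
    ((List.range m).filter fun b => decide (3 ≤ tt (w b))).length := by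
  induction m with
  | zero => rfl
  | succ m ih =>
    have h3 : tt (w m) ≤ 3 := by unfold tt; omega
    have e : SS (m + 1) w = SS m w + tt (w m) := Finset.sum_range_succ _ _
    rw [e, ih, List.range_succ]
    simp only [List.filter_append, List.length_append, List.filter_cons, List.filter_nil,
      decide_eq_true_eq]
    generalize tt (w m) = v at h3
    interval_cases v <;> simp <;> omega

theorem pu_SS {m : α → ℕ} {w : α → ℕ → ℕ} (hm : PU m) (hw : PTime₂ w) :
    PU (fun a => SS (m a) (w a)) := by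
  have h : ∀ k : ℕ, PU (fun a => ((List.range (m a)).filter fun b =>
      decide (k ≤ tt (w a b))).length) := fun k =>
    PU.ofLength (PTime.filter (g := fun (a : α) (b : ℕ) => decide (k ≤ tt (w a b))) hm.range
      (PTime.le (PTime.const k) (ptime_tt hw)))
  exact (((h 1).add (h 2)).add (h 3)).of_eq fun a => (SS_eq _ _).symm

theorem ptime_bo {m : α → ℕ} {w : α → ℕ → ℕ} (hm : PU m) (hw : PTime₂ w) :
    PTime (fun a => bo (m a) (w a)) := by
  refine PTime.getD (PTime.find? (g := fun (a : α) (b : ℕ) => decide (tt (w a b) ≠ 0)) hm.range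
    ?_) (PTime.const 0)
  exact PTime.notP (PTime.eq (ptime_tt hw) (PTime.const 0))

theorem ptime_ou {C : α → Circuit} {q : α → List Bool} {b : α → ℕ} (hC : PTime C) (hq : PTime q)
    (hb : PTime b) : PTime (fun a => ou (C a) (q a) (b a)) :=
  PTime.eq (ptime_step hC hq) (ptime_flip hq hb)

theorem ptime_inn {C : α → Circuit} {q : α → List Bool} {b : α → ℕ} (hC : PTime C)
    (hq : PTime q) (hb : PTime b) : PTime (fun a => inn (C a) (q a) (b a)) :=
  ptime_ou hC (ptime_flip hq hb) hb

theorem ptime_ff {d : α → List Bool → ℕ → Bool} {m : α → ℕ} {w : α → ℕ → ℕ}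
    (hd : ∀ (q : α × ℕ → List Bool) (b : α × ℕ → ℕ), PTime q → PTime b →
      PTime (fun p => d p.1 (q p) (b p))) (hm : PU m) (hw : PTime₂ w) :
    PTime₂ (fun (a : α) (b : ℕ) => ff (d a) (m a) (w a) b) := by
  have h1 : PTime (fun p : α × ℕ => qq (m p.1) (w p.1)) := (ptime_qq hm hw).comp PTime.fst
  have h2 : PTime (fun p : α × ℕ => tt (w p.1 p.2)) := ptime_tt hw
  refine PTime.iteP (PTime.boolP (hd _ _ h1 PTime.snd)) ?_ (h2.sub (PTime.const 1))
  refine (PTime.iteP (PTime.le h2 (PTime.const 2)) h2 (PTime.const 2)).of_eq fun p => ?_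
  rw [Nat.min_def]

theorem ptime_FF {d : α → List Bool → ℕ → Bool} {m : α → ℕ} {w : α → ℕ → ℕ}
    (hd : ∀ (q : α × ℕ → List Bool) (b : α × ℕ → ℕ), PTime q → PTime b →
      PTime (fun p => d p.1 (q p) (b p))) (hm : PU m) (hw : PTime₂ w) :
    PTime (fun a => FF (d a) (m a) (w a)) := by
  have h1 := ptime_ff hd hm hw
  have h2 : ∀ k : ℕ, PTime (fun a => (List.range (m a)).any fun b =>
      decide (k ≤ ff (d a) (m a) (w a) b)) := fun k =>
    PTime.any (g := fun (a : α) (b : ℕ) => decide (k ≤ ff (d a) (m a) (w a) b)) hm.range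
      (PTime.le (PTime.const k) h1)
  exact PTime.iteP (PTime.boolP (h2 2)) (PTime.const 2)
    (PTime.iteP (PTime.boolP (h2 1)) (PTime.const 1) (PTime.const 0))

theorem ptime_hh {d : α → List Bool → ℕ → Bool} {m : α → ℕ} {w : α → ℕ → ℕ}
    (hd : ∀ (q : α × ℕ → List Bool) (b : α × ℕ → ℕ), PTime q → PTime b →
      PTime (fun p => d p.1 (q p) (b p))) (hm : PU m) (hw : PTime₂ w) :
    PTime (fun a => hh (d a) (m a) (w a)) :=
  ((PTime.const 4).add (pu_SS hm hw).toNat).sub ((PTime.const 2).mul (ptime_FF hd hm hw))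

theorem ptime_vl {C : α → Circuit} {q : α → List Bool} (hC : PTime C) (hq : PTime q) :
    PTime (fun a => vl (C a) (q a)) :=
  (PTime.natOfBits (ptime_out hC hq)).of_eq fun _ => (val_eq_ofBits _).symm

theorem ptime_bg {C : α → Circuit} (hC : PTime C) : PTime (fun a => bg (C a)) :=
  (PTime.const 10).mul (ptime_pow2 (PU.ofLength (ptime_outs hC)))

theorem ptime_rr {m : α → ℕ} (hm : PTime m) : PTime (fun a => rr (m a)) :=
  ((PTime.const 3).mul hm).add (PTime.const 10)

section
variable {C : α → Circuit} {w : α → ℕ → ℕ} (hC : PTime C) (hw : PTime₂ w)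
include hC hw

theorem ptime_k1 : PTime (fun a => k1 (C a) (w a)) := by
  have hn := pu_n hC
  have hS := (pu_SS hn hw).toNat
  have hq := ptime_qq hn hw
  have hb := ptime_bo hn hw
  have ht := ptime_tt (hw.comp₂ PTime.id hb)
  have hv := ptime_vl hC hq
  have h10 := (PTime.const (α := α) 10).mul hv
  refine PTime.iteP (PTime.eq hS (PTime.const 0)) (h10.add (PTime.const 7)) (PTime.iteP ?_ ?_ ?_)
  · exact PTime.andP (PTime.eq hS ht) (PTime.andP (PTime.le ht (PTime.const 2))
      (PTime.boolP (ptime_ou hC hq hb)))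
  · exact h10.add ((PTime.const 7).sub ht)
  · exact ((ptime_bg hC).add ((PTime.const 3).mul (ptime_rr hn.toNat))).add
      (ptime_hh (d := fun a => ou (C a)) (fun q b hq hb => ptime_ou (hC.comp PTime.fst) hq hb)
        hn hw)

theorem ptime_k2 : PTime (fun a => k2 (C a) (w a)) := by
  have hn := pu_n hC
  have hS := (pu_SS hn hw).toNat
  have hq := ptime_qq hn hw
  have hb := ptime_bo hn hw
  have ht := ptime_tt (hw.comp₂ PTime.id hb)
  refine PTime.iteP ?_ ?_ (PTime.iteP ?_ ?_ ?_)
  · exact PTime.andP (PTime.eq hS ht) (PTime.andP (PTime.le (PTime.const 2) ht)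
      (PTime.boolP (ptime_ou hC hq hb)))
  · exact ((PTime.const 10).mul (ptime_vl hC hq)).add ((PTime.const 6).sub ht)
  · exact PTime.andP (PTime.eq hS ht) (PTime.andP (PTime.le (PTime.const 2) ht)
      (PTime.boolP (ptime_inn hC hq hb)))
  · exact ((PTime.const 10).mul (ptime_vl hC (ptime_flip hq hb))).add ht
  · exact ((ptime_bg hC).add ((PTime.const 2).mul (ptime_rr hn.toNat))).add
      (ptime_hh (d := fun a => inn (C a)) (fun q b hq hb => ptime_inn (hC.comp PTime.fst) hq hb)
        hn hw)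

theorem ptime_k3 : PTime (fun a => k3 (C a) (w a)) := by
  have hn := pu_n hC
  have hS := (pu_SS hn hw).toNat
  have hq := ptime_qq hn hw
  have hb := ptime_bo hn hw
  have ht := ptime_tt (hw.comp₂ PTime.id hb)
  refine PTime.iteP (PTime.eq hS (PTime.const 0))
    (((PTime.const 10).mul (ptime_vl hC hq)).add (PTime.const 9)) (PTime.iteP ?_ ?_ ?_)
  · exact PTime.andP (PTime.eq hS ht) (PTime.andP (PTime.le ht (PTime.const 2))
      (PTime.boolP (ptime_inn hC hq hb)))
  · exact ((PTime.const 10).mul (ptime_vl hC (ptime_flip hq hb))).add (ht.sub (PTime.const 1))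
  · exact (ptime_bg hC).add hS

theorem ptime_k4 : PTime (fun a => k4 (C a) (w a)) := by
  have hn := pu_n hC
  have hS := (pu_SS hn hw).toNat
  exact PTime.iteP (PTime.eq hS (PTime.const 0))
    (((PTime.const 10).mul (ptime_vl hC (ptime_qq hn hw))).add (PTime.const 8))
    (((ptime_bg hC).add (ptime_rr hn.toNat)).add hS)

theorem ptime_kap {p r : α → Bool} (hp : PTime p) (hr : PTime r) :
    PTime (fun a => kap (C a) (p a) (r a) (w a)) :=
  PTime.iteP (PTime.boolP hp)
    (PTime.iteP (PTime.boolP hr) (ptime_k3 hC hw) (ptime_k4 hC hw))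
    (PTime.iteP (PTime.boolP hr) (ptime_k2 hC hw) (ptime_k1 hC hw))

end

theorem ptime_wt {x : α → List Bool} {b : α → ℕ} (hx : PTime x) (hb : PTime b) :
    PTime (fun a => wt (x a) (b a)) := by
  have h6 := (PTime.const (α := α) 6).mul hb
  have h : ∀ k : ℕ, PTime (fun a => ((x a).getD (6 * b a + k) false).toNat) := fun k =>
    PTime.boolToNat (PTime.listGetD hx (h6.add (PTime.const k)) (PTime.const false))
  exact ((((((PTime.boolToNat (PTime.listGetD hx h6 (PTime.const false))).add (h 1)).add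
    (h 2)).add (h 3)).add (h 4)).add (h 5))

theorem ptime_kx : PTime (fun p : Circuit × List Bool => kx p.1 p.2) := by
  have hC : PTime (fun p : Circuit × List Bool => p.1) := PTime.fst
  have hx : PTime (fun p : Circuit × List Bool => p.2) := PTime.snd
  have h6 := (PTime.const (α := Circuit × List Bool) 6).mul (pu_n hC).toNat
  exact ptime_kap (w := fun p : Circuit × List Bool => wt p.2) hC
    (ptime_wt (hx.comp PTime.fst) PTime.snd)
    (PTime.listGetD hx h6 (PTime.const false))
    (PTime.listGetD hx (h6.add (PTime.const 1)) (PTime.const false))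

theorem pu_kn : PU (fun C : Circuit => 6 * C.n + 2) :=
  ((PU.const 6).mul (pu_n PTime.id)).add (PU.const 2)

theorem ptime_qx : PTime (fun p : Circuit × List Bool => qq p.1.n (wt p.2)) :=
  ptime_qq (w := fun p : Circuit × List Bool => wt p.2) (pu_n PTime.fst)
    (ptime_wt (PTime.snd.comp PTime.fst) PTime.snd)

end Pool.Agent.MPa0a715.SE
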