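import Pool.Agent.Lib.MP_a0a715_lc_SE.HOri

/-!
# The cost function of the reduction: flips of bits, local minima
-/

namespace Pool.Agent.MPa0a715.SE

open Pool.Agent.MPa0a715 Pool.Agent.PolyTime
open Pool.Agent.MPa0a715.IN (step step_cases length_step val_lt_cost)
open Pool.Agent.MPa0a715.NB (flip_ne flip_comm)

/-! ### weights -/

theorem getD_flip_ne (x : List Bool) {i j : ℕ} (h : i ≠ j) :
    (flip x i).getD j false = x.getD j false := by
  unfold flip
  rw [List.getD_eq_getElem?_getD, List.getD_eq_getElem?_getD, List.getElem?_modify_ne _ _ h]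

theorem getD_flip' {x : List Bool} {i : ℕ} (hi : i < x.length) (j : ℕ) :
    (flip x i).getD j false = if i = j then !x.getD j false else x.getD j false := by
  split_ifs with h
  · subst h
    rw [getD_flip _ _ _ hi, if_pos rfl]
  · exact getD_flip_ne x h

theorem wt_ne (x : List Bool) {i b : ℕ} (h : i / 6 ≠ b) : wt (flip x i) b = wt x b := by
  unfold wt
  rw [getD_flip_ne x (by omega), getD_flip_ne x (by omega), getD_flip_ne x (by omega),
    getD_flip_ne x (by omega), getD_flip_ne x (by omega), getD_flip_ne x (by omega)]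

theorem wt_eq {x : List Bool} {i : ℕ} (hi : i < x.length) :
    (x.getD i false = false → wt (flip x i) (i / 6) = wt x (i / 6) + 1) ∧
    (x.getD i false = true → wt x (i / 6) = wt (flip x i) (i / 6) + 1) := by
  have h : i = 6 * (i / 6) ∨ i = 6 * (i / 6) + 1 ∨ i = 6 * (i / 6) + 2 ∨
      i = 6 * (i / 6) + 3 ∨ i = 6 * (i / 6) + 4 ∨ i = 6 * (i / 6) + 5 := by omega
  generalize i / 6 = b at h
  unfold wt
  rcases h with rfl | rfl | rfl | rfl | rfl | rfl <;>
    simp only [getD_flip' hi, Nat.add_left_cancel_iff, Nat.left_eq_add, Nat.add_eq_left,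
      OfNat.ofNat_ne_zero, OfNat.ofNat_ne_one, OfNat.one_ne_ofNat, one_ne_zero, if_true,
      if_false, Nat.reduceEqDiff] <;>
    constructor <;> intro h <;> rw [h] <;> simp <;> omega

theorem toNat_le (b : Bool) : b.toNat ≤ 1 := Bool.toNat_le b

theorem wt_le (x : List Bool) (b : ℕ) : wt x b ≤ 6 := by
  unfold wt
  have h0 := toNat_le (x.getD (6 * b) false)
  have h1 := toNat_le (x.getD (6 * b + 1) false)
  have h2 := toNat_le (x.getD (6 * b + 2) false)
  have h3 := toNat_le (x.getD (6 * b + 3) false)
  have h4 := toNat_le (x.getD (6 * b + 4) false)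
  have h5 := toNat_le (x.getD (6 * b + 5) false)
  omega

theorem exists_false {x : List Bool} {b : ℕ} (h : wt x b < 6) :
    ∃ i, i / 6 = b ∧ x.getD i false = false := by
  by_contra hcon
  push Not at hcon
  have key : ∀ k < 6, x.getD (6 * b + k) false = true := fun k hk => by
    have := hcon (6 * b + k) (by omega)
    rwa [Ne, Bool.not_eq_false] at this
  have h0 := key 0 (by omega)
  rw [Nat.add_zero] at h0
  unfold wt at h
  rw [h0, key 1 (by omega), key 2 (by omega), key 3 (by omega), key 4 (by omega),
    key 5 (by omega)] at h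
  simp at h

theorem exists_true {x : List Bool} {b : ℕ} (h : 0 < wt x b) :
    ∃ i, i / 6 = b ∧ x.getD i false = true := by
  by_contra hcon
  push Not at hcon
  have key : ∀ k < 6, x.getD (6 * b + k) false = false := fun k hk => by
    have := hcon (6 * b + k) (by omega)
    rwa [Ne, Bool.not_eq_true] at this
  have h0 := key 0 (by omega)
  rw [Nat.add_zero] at h0
  unfold wt at h
  rw [h0, key 1 (by omega), key 2 (by omega), key 3 (by omega), key 4 (by omega),
    key 5 (by omega)] at h
  simp at h

/-! ### steps up -/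

section
variable {m b : ℕ} {w w' : ℕ → ℕ}

theorem qq_same (hne : ∀ c, c ≠ b → w' c = w c) (h : 3 ≤ w' b ↔ 3 ≤ w b) :
    qq m w' = qq m w := by
  unfold qq
  refine List.map_congr_left fun c _ => ?_
  rw [decide_eq_decide]
  by_cases hc : c = b
  · rw [hc]
    exact h
  · rw [hne c hc]

theorem qq_flip (hne : ∀ c, c ≠ b → w' c = w c) (hb : b < m) (h : 3 ≤ w' b ↔ ¬ 3 ≤ w b) :
    qq m w' = flip (qq m w) b := by
  refine ext_getD (by rw [length_flip, length_qq, length_qq]) fun c hc => ?_
  rw [length_qq] at hc
  rw [getD_flip' (by rw [length_qq]; exact hb), getD_qq _ hc, getD_qq _ hc]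
  split_ifs with hbc
  · subst hbc
    rw [Bool.eq_iff_iff, Bool.not_eq_true', decide_eq_true_eq, decide_eq_false_iff_not]
    exact h
  · rw [hne c (Ne.symm hbc)]

theorem succ_up (hb : b < m) (hne : ∀ c, c ≠ b → w' c = w c) (hv : w' b = w b + 1)
    (hle : w' b ≤ 6) : (w b ≤ 2 → Up m b w w') ∧ (3 ≤ w b → Up m b w' w) := by
  constructor
  · intro h
    refine ⟨hb, hne, by unfold tt; omega, ?_⟩
    by_cases h2 : w b = 2
    · exact Or.inr ⟨by unfold tt; omega, qq_flip hne hb (by omega)⟩
    · exact Or.inl (qq_same hne (by omega))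
  · intro h
    exact ⟨hb, fun c hc => (hne c hc).symm, by unfold tt; omega,
      Or.inl (qq_same hne (by omega)).symm⟩

end

section
variable {m : ℕ} {x : List Bool} (hx : x.length = 6 * m + 2)
include hx

theorem up_flip {i : ℕ} (hi : i < 6 * m) :
    Up m (i / 6) (wt x) (wt (flip x i)) ∨ Up m (i / 6) (wt (flip x i)) (wt x) := by
  have hb : i / 6 < m := by omega
  have h := wt_eq (x := x) (i := i) (by omega)
  cases hi' : x.getD i false with
  | false =>
    have hs := succ_up hb (fun c hc => wt_ne x (Ne.symm hc)) (h.1 hi') (wt_le _ _)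
    rcases Nat.lt_or_ge (wt x (i / 6)) 3 with h1 | h1
    · exact Or.inl (hs.1 (by omega))
    · exact Or.inr (hs.2 h1)
  | true =>
    have hs := succ_up hb (fun c hc => (wt_ne x (Ne.symm hc)).symm) (h.2 hi') (wt_le _ _)
    rcases Nat.lt_or_ge (wt (flip x i) (i / 6)) 3 with h1 | h1
    · exact Or.inr (hs.1 (by omega))
    · exact Or.inl (hs.2 h1)

theorem exists_up {b : ℕ} (hb : b < m) (ht : tt (wt x b) ≤ 2) :
    ∃ i < 6 * m, Up m b (wt x) (wt (flip x i)) := by
  have hle := wt_le x b
  rcases Nat.lt_or_ge (wt x b) 3 with h1 | h1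
  · obtain ⟨i, hi, h2⟩ := exists_false (x := x) (b := b) (by omega)
    have h := wt_eq (x := x) (i := i) (by omega)
    subst hi
    exact ⟨i, by omega, (succ_up hb (fun c hc => wt_ne x (Ne.symm hc)) (h.1 h2)
      (wt_le _ _)).1 (by omega)⟩
  · have h0 : 4 ≤ wt x b := by
      unfold tt at ht
      omega
    obtain ⟨i, hi, h2⟩ := exists_true (x := x) (b := b) (by omega)
    have h := wt_eq (x := x) (i := i) (by omega)
    subst hi
    have h3 := h.2 h2
    exact ⟨i, by omega, (succ_up hb (fun c hc => (wt_ne x (Ne.symm hc)).symm) h3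
      (wt_le _ _)).2 (by omega)⟩

theorem exists_down {b : ℕ} (hb : b < m) (ht : tt (wt x b) ≠ 0) :
    ∃ i < 6 * m, Up m b (wt (flip x i)) (wt x) := by
  have hle := wt_le x b
  have h0 : 0 < wt x b ∧ wt x b < 6 := by
    unfold tt at ht
    omega
  rcases Nat.lt_or_ge (wt x b) 4 with h1 | h1
  · obtain ⟨i, hi, h2⟩ := exists_true (x := x) (b := b) h0.1
    have h := wt_eq (x := x) (i := i) (by omega)
    subst hi
    have h3 := h.2 h2
    exact ⟨i, by omega, (succ_up hb (fun c hc => (wt_ne x (Ne.symm hc)).symm) h3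
      (wt_le _ _)).1 (by omega)⟩
  · obtain ⟨i, hi, h2⟩ := exists_false (x := x) (b := b) h0.2
    have h := wt_eq (x := x) (i := i) (by omega)
    subst hi
    exact ⟨i, by omega, (succ_up hb (fun c hc => wt_ne x (Ne.symm hc)) (h.1 h2)
      (wt_le _ _)).2 (by omega)⟩

/-- the two ways down from the middle -/
theorem exists_mid {b : ℕ} (hb : b < m) (ht : wt x b = 3) (c : Bool) :
    ∃ i < 6 * m, Up m b (wt (flip x i)) (wt x) ∧
      qq m (wt (flip x i)) = if c = true then flip (qq m (wt x)) b else qq m (wt x) := by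
  cases c with
  | true =>
    obtain ⟨i, hi, h2⟩ := exists_true (x := x) (b := b) (by omega)
    have h := wt_eq (x := x) (i := i) (by omega)
    subst hi
    have h3 := h.2 h2
    refine ⟨i, by omega, (succ_up hb (fun c hc => (wt_ne x (Ne.symm hc)).symm) h3
      (wt_le _ _)).1 (by omega), ?_⟩
    rw [if_pos rfl]
    exact qq_flip (fun c hc => wt_ne x (Ne.symm hc)) hb (by omega)
  | false =>
    obtain ⟨i, hi, h2⟩ := exists_false (x := x) (b := b) (by omega)
    have h := wt_eq (x := x) (i := i) (by omega)
    subst hi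
    have h3 := h.1 h2
    refine ⟨i, by omega, (succ_up hb (fun c hc => wt_ne x (Ne.symm hc)) h3
      (wt_le _ _)).2 (by omega), ?_⟩
    rw [if_neg Bool.false_ne_true]
    exact qq_same (fun c hc => wt_ne x (Ne.symm hc)) (by omega)

end

/-! ### the cost depends on the weights of the blocks only -/

section
variable {C : Circuit} {m : ℕ} {w w' : ℕ → ℕ}

theorem qq_congr (h : ∀ b < m, w b = w' b) : qq m w = qq m w' := by
  unfold qq
  refine List.map_congr_left fun b hb => ?_
  rw [h b (List.mem_range.1 hb)]

theorem SS_congr (h : ∀ b < m, w b = w' b) : SS m w = SS m w' :=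
  Finset.sum_congr rfl fun b hb => by rw [h b (Finset.mem_range.1 hb)]

theorem FF_congr (d : List Bool → ℕ → Bool) (h : ∀ b < m, w b = w' b) :
    FF d m w = FF d m w' := by
  refine le_antisymm (FF_le d w fun b hb => ?_) (FF_le d w' fun b hb => ?_)
  · refine le_trans (le_of_eq ?_) (ff_le_FF d w' hb)
    unfold ff
    rw [qq_congr h, h b hb]
  · refine le_trans (le_of_eq ?_) (ff_le_FF d w hb)
    unfold ff
    rw [qq_congr h, h b hb]

theorem hh_congr (d : List Bool → ℕ → Bool) (h : ∀ b < m, w b = w' b) :
    hh d m w = hh d m w' := by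
  unfold hh
  rw [SS_congr h, FF_congr d h]

theorem kap_congr (p r : Bool) (h : ∀ b < C.n, w b = w' b) : kap C p r w = kap C p r w' := by
  have hq := qq_congr h
  have hs := SS_congr h
  have h1 := hh_congr (ou C) h
  have h2 := hh_congr (inn C) h
  unfold kap
  rcases cls C.n w with hz | ⟨b, hb⟩ | hm
  · have hz' : SS C.n w' = 0 := by rw [← hs, hz]
    rw [k1_zero hz, k2_zero hz, k3_zero hz, k4_zero hz, k1_zero hz', k2_zero hz', k3_zero hz',
      k4_zero hz', hq, h2]
  · have hb' : Sg C.n w' b := ⟨hb.hb, by rw [← h b hb.hb]; exact hb.pos, fun c hc hcb => by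
      rw [← h c hc]
      exact hb.oth c hc hcb⟩
    rw [k1_sg hb, k2_sg hb, k3_sg hb, k4_sg hb, k1_sg hb', k2_sg hb', k3_sg hb', k4_sg hb', hq,
      h1, h2, h b hb.hb]
  · obtain ⟨b, hb, c, hc, g1, g2, g3⟩ := hm
    have hm : Mu C.n w := ⟨b, hb, c, hc, g1, g2, g3⟩
    have hm' : Mu C.n w' := ⟨b, hb, c, hc, g1, by rwa [← h b hb], by rwa [← h c hc]⟩
    rw [k1_mu hm, k2_mu hm, k3_mu hm, k4_mu hm, k1_mu hm', k2_mu hm', k3_mu hm', k4_mu hm', hs,
      h1, h2]

end

/-! ### flips -/

section
variable {C : Circuit} {x : List Bool} (hx : x.length = 6 * C.n + 2)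

/-- height of an input -/
def px (C : Circuit) (x : List Bool) : ℕ :=
  ph C (x.getD (6 * C.n) false) (x.getD (6 * C.n + 1) false) (wt x)

include hx

theorem kx_data {i : ℕ} (hi : i < 6 * C.n) :
    (kx C (flip x i) < kx C x ∧ px C (flip x i) + 1 = px C x) ∨
    (kx C x < kx C (flip x i) ∧ px C x + 1 = px C (flip x i)) := by
  unfold kx px
  rw [getD_flip_ne x (by omega), getD_flip_ne x (by omega)]
  rcases up_flip hx hi with h | h
  · exact orient _ _ h
  · rcases orient (x.getD (6 * C.n) false) (x.getD (6 * C.n + 1) false) h with h1 | h1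
    · exact Or.inr h1
    · exact Or.inl h1

theorem kx_p : kx C (flip x (6 * C.n)) =
    kap C (!x.getD (6 * C.n) false) (x.getD (6 * C.n + 1) false) (wt x) := by
  unfold kx
  rw [getD_flip_ne x (i := 6 * C.n) (j := 6 * C.n + 1) (by omega), getD_flip' (by omega),
    if_pos rfl]
  exact kap_congr _ _ fun b hb => wt_ne x (by omega)

theorem kx_r : kx C (flip x (6 * C.n + 1)) =
    kap C (x.getD (6 * C.n) false) (!x.getD (6 * C.n + 1) false) (wt x) := by
  unfold kx
  rw [getD_flip_ne x (i := 6 * C.n + 1) (j := 6 * C.n) (by omega), getD_flip' (by omega),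
    if_pos rfl]
  exact kap_congr _ _ fun b hb => wt_ne x (by omega)

/-- no ties -/
theorem kx_ne {i : ℕ} (hi : i < 6 * C.n + 2) : kx C (flip x i) ≠ kx C x := by
  rcases Nat.lt_or_ge i (6 * C.n) with h | h
  · rcases kx_data hx h with h1 | h1 <;> omega
  · have h12 := (k12 C (wt x)).1
    have h23 := (k23 C (wt x)).1
    have h43 := (k43 C (wt x)).1
    have h41 := (k41 C (wt x)).1
    have hi' : i = 6 * C.n ∨ i = 6 * C.n + 1 := by omega
    rcases hi' with rfl | rfl
    · rw [kx_p hx]
      unfold kx kap
      cases x.getD (6 * C.n) false <;> cases x.getD (6 * C.n + 1) false <;>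
        simp only [Bool.not_false, Bool.not_true, Bool.false_eq_true, if_false, if_true]
      · exact h41
      · exact h23.symm
      · exact h41.symm
      · exact h23
    · rw [kx_r hx]
      unfold kx kap
      cases x.getD (6 * C.n) false <;> cases x.getD (6 * C.n + 1) false <;>
        simp only [Bool.not_false, Bool.not_true, Bool.false_eq_true, if_false, if_true]
      · exact h12.symm
      · exact h12
      · exact h43.symm
      · exact h43

/-- data bits react to each other both or not at all -/
theorem kx_react {i j : ℕ} (hi : i < 6 * C.n) (hj : j < 6 * C.n) :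
    (kx C (flip x i) < kx C x ↔ kx C (flip (flip x j) i) < kx C (flip x j)) ↔
    (kx C (flip x j) < kx C x ↔ kx C (flip (flip x i) j) < kx C (flip x i)) := by
  have h1 := kx_data hx hi
  have h2 := kx_data hx hj
  have h3 := kx_data (x := flip x j) (by rw [length_flip, hx]) hi
  have h4 := kx_data (x := flip x i) (by rw [length_flip, hx]) hj
  rw [flip_comm x i j] at h4 ⊢
  omega

end

/-! ### local minima -/

theorem hh_sg {m b : ℕ} {w : ℕ → ℕ} (d : List Bool → ℕ → Bool) (h : Sg m w b) :
    hh d m w + 2 * ff d m w b = 4 + tt (w b) := by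
  have h1 := hh_add d m w
  rw [h.ff d, h.ss] at h1
  exact h1

theorem Sg.up {m b : ℕ} {w w' : ℕ → ℕ} (h : Sg m w b) (hu : Up m b w w') : Sg m w' b :=
  ⟨h.hb, by rw [hu.ht]; omega, fun c hc hcb => by
    rw [hu.ne c hcb]
    exact h.oth c hc hcb⟩

theorem Sg.down {m b : ℕ} {w w' : ℕ → ℕ} (h : Sg m w' b) (hu : Up m b w w')
    (hp : tt (w b) ≠ 0) : Sg m w b :=
  ⟨h.hb, hp, fun c hc hcb => by
    rw [← hu.ne c hcb]
    exact h.oth c hc hcb⟩

theorem kx_min {C : Circuit} {x : List Bool} (hx : x.length = 6 * C.n + 2)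
    (h : ∀ i < 6 * C.n + 2, kx C x ≤ kx C (flip x i)) :
    C.IsLocalMin (qq C.n (wt x)) := by
  have hd : ∀ i < 6 * C.n, px C x + 1 = px C (flip x i) := by
    intro i hi
    rcases kx_data hx hi with h1 | h1
    · have := h i (by omega)
      omega
    · exact h1.2
  have hp := h (6 * C.n) (by omega)
  have hr := h (6 * C.n + 1) (by omega)
  rw [kx_p hx] at hp
  rw [kx_r hx] at hr
  have hd' : ∀ i < 6 * C.n, ph C (x.getD (6 * C.n) false) (x.getD (6 * C.n + 1) false)
      (wt x) + 1 = ph C (x.getD (6 * C.n) false) (x.getD (6 * C.n + 1) false)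
        (wt (flip x i)) := by
    intro i hi
    have := hd i hi
    unfold px at this
    rwa [getD_flip_ne x (by omega), getD_flip_ne x (by omega)] at this
  unfold kx at hp hr
  unfold kap at hp hr
  unfold ph at hd'
  cases hpb : x.getD (6 * C.n) false <;> cases hrb : x.getD (6 * C.n + 1) false <;>
    rw [hpb, hrb] at hp hr hd' <;>
    simp only [Bool.not_false, Bool.not_true, Bool.false_eq_true, if_false, if_true]
      at hp hr hd'
  · -- first phase
    refine ⟨length_qq _ _, ?_⟩
    by_cases hz : SS C.n (wt x) = 0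
    · rcases step_cases C (qq C.n (wt x)) with ⟨_, h2⟩ | ⟨b, hb, h2, _⟩
      · exact h2
      · exfalso
        have hb0 := SS_zero.1 hz b hb
        obtain ⟨i, hi, hu⟩ := exists_up hx hb (by omega)
        have h3 := hd' i hi
        have h4 := hu.ht
        have hq : qq C.n (wt (flip x i)) = qq C.n (wt x) := hu.hq.resolve_right (by omega)
        have hs : Sg C.n (wt (flip x i)) b := ⟨hb, by omega, fun c hc hcb => by
          rw [hu.ne c hcb]
          exact SS_zero.1 hz c hc⟩
        have h5 := hh_sg (ou C) hs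
        have h6 := hh_add (ou C) C.n (wt x)
        rw [FF_zero _ hz, hz] at h6
        have h7 : ou C (qq C.n (wt (flip x i))) b = true := by
          rw [hq]
          unfold ou
          rw [decide_eq_true_eq]
          exact h2
        unfold ff at h5
        rw [if_pos h7, h4, hb0] at h5
        omega
    · exfalso
      by_cases hs : ∃ b, Sg C.n (wt x) b ∧ tt (wt x b) ≤ 1 ∧ ou C (qq C.n (wt x)) b = true
      · obtain ⟨b, hs, ht, ho⟩ := hs
        obtain ⟨i, hi, hu⟩ := exists_up hx hs.hb (by omega)
        have h3 := hd' i hi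
        have h4 := hu.ht
        have hq : qq C.n (wt (flip x i)) = qq C.n (wt x) := hu.hq.resolve_right (by omega)
        have h5 := hh_sg (ou C) (hs.up hu)
        have h6 := hh_sg (ou C) hs
        have h7 := hs.pos
        unfold ff at h5 h6
        rw [hq, if_pos ho] at h5
        rw [if_pos ho] at h6
        omega
      · have := (k12 C (wt x)).2 hz hs
        omega
  · -- second phase
    exfalso
    by_cases hs : ∃ b, Sg C.n (wt x) b ∧ 2 ≤ tt (wt x b) ∧
        (ou C (qq C.n (wt x)) b = true ∨ (tt (wt x b) = 3 ∧ inn C (qq C.n (wt x)) b = true))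
    · obtain ⟨b, hs, ht, ho⟩ := hs
      have ht3 := tt_le (wt x b)
      by_cases h3 : tt (wt x b) = 3
      · have hw3 : wt x b = 3 := by
          have := wt_le x b
          unfold tt at h3
          omega
        have key : ∃ i < 6 * C.n, Up C.n b (wt (flip x i)) (wt x) ∧
            inn C (qq C.n (wt (flip x i))) b = true := by
          rcases ho with ho | ⟨_, ho⟩
          · obtain ⟨i, hi, hu, hq⟩ := exists_mid hx hs.hb hw3 true
            rw [if_pos rfl] at hq
            exact ⟨i, hi, hu, by rw [hq, inn_flip]; exact ho⟩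
          · obtain ⟨i, hi, hu, hq⟩ := exists_mid hx hs.hb hw3 false
            rw [if_neg Bool.false_ne_true] at hq
            exact ⟨i, hi, hu, by rw [hq]; exact ho⟩
        obtain ⟨i, hi, hu, hin⟩ := key
        have h4 := hd' i hi
        have h5 := hu.ht
        have h6 := hh_sg (inn C) (hs.down hu (by omega))
        have h7 := hh_sg (inn C) hs
        have h8 : ff (inn C) C.n (wt x) b = 2 := by
          unfold ff
          split_ifs <;> omega
        unfold ff at h6
        rw [if_pos hin] at h6
        omega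
      · have ho' : ou C (qq C.n (wt x)) b = true := by
          rcases ho with ho | ho
          · exact ho
          · exact absurd ho.1 h3
        have hni : ¬ inn C (qq C.n (wt x)) b = true := by
          intro hin
          have g1 := ou_lt (length_qq _ _) hs.hb ho'
          have g2 := inn_lt (length_qq _ _) hs.hb hin
          omega
        obtain ⟨i, hi, hu⟩ := exists_up hx hs.hb (by omega)
        have h4 := hd' i hi
        have h5 := hu.ht
        have h6 := hh_sg (inn C) (hs.up hu)
        have h7 := hh_sg (inn C) hs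
        have h8 : ff (inn C) C.n (wt (flip x i)) b = 2 := by
          unfold ff
          split_ifs <;> omega
        unfold ff at h7
        rw [if_neg hni] at h7
        omega
    · have := (k23 C (wt x)).2 hs
      omega
  · -- fourth phase
    exfalso
    by_cases hz : SS C.n (wt x) = 0
    · have := ((k41 C (wt x)).2 hz).1
      omega
    · have := (k43 C (wt x)).2 hz
      omega
  · -- third phase
    exfalso
    by_cases hz : SS C.n (wt x) = 0
    · have := ((k41 C (wt x)).2 hz).2
      omega
    · have h1 := hz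
      rw [SS_zero] at h1
      push Not at h1
      obtain ⟨b, hb, h2⟩ := h1
      obtain ⟨i, hi, hu⟩ := exists_down hx hb h2
      have h3 := hd' i hi
      have h4 := hu.ss
      omega

end Pool.Agent.MPa0a715.SE
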