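import Pool.Agent.Lib.MP_a0a715_lc_SE.HRed
import Pool.Agent.Lib.MP_a0a715_lc_SE.HPT
import Pool.Agent.Lib.MP_a0a715_lc_WM.Circ
import Pool.Agent.Lib.MP_a0a715_lc_WM.Main

/-!
# Two bits meeting all one-way pairs: Circuit-FLIP is as hard as without restriction
-/

namespace Pool.Agent.MPa0a715.SE

open Pool.Agent.MPa0a715 Pool.Agent.PolyTime
open Pool.Agent.MPa0a715.WM (circStmt)
open Pool.Agent.MPa0a715.WM.A (cost_of_bits testBit_eq)

/-- number of digits of the cost -/
def dg (C : Circuit) : ℕ := C.outs.length + C.n + 11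

theorem kap_lt (C : Circuit) (p r : Bool) (w : ℕ → ℕ) : kap C p r w < bg C + 4 * rr C.n := by
  have h1 := vl_lt C (qq C.n w)
  have h2 := vl_lt C (flip (qq C.n w) (bo C.n w))
  have h3 := hh_lt C w (ou C)
  have h4 := hh_lt C w (inn C)
  have h5 : SS C.n w < rr C.n := by
    have h1 := SS_le C.n w
    unfold rr
    omega
  have h6 := tt_le (w (bo C.n w))
  unfold kap k1 k2 k3 k4
  split_ifs <;> omega

theorem kx_lt (C : Circuit) (x : List Bool) : kx C x < 2 ^ dg C := by
  refine (kap_lt C _ _ _).trans_le ?_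
  unfold bg rr dg
  have h1 : C.n < 2 ^ C.n := Nat.lt_two_pow_self
  have h2 : 1 ≤ 2 ^ C.outs.length := Nat.one_le_two_pow
  have h3 : 1 ≤ 2 ^ C.n := Nat.one_le_two_pow
  have h4 : 2 ^ (C.outs.length + C.n + 11) = 2048 * (2 ^ C.outs.length * 2 ^ C.n) := by
    rw [pow_add, pow_add]
    ring
  have h5 : 2 ^ C.outs.length * 1 ≤ 2 ^ C.outs.length * 2 ^ C.n := Nat.mul_le_mul_left _ h3
  have h6 : 1 * 2 ^ C.n ≤ 2 ^ C.outs.length * 2 ^ C.n := Nat.mul_le_mul_right _ h2
  rw [h4]
  omega

/-- the digits of the cost -/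
def bitK (C : Circuit) (j : ℕ) (x : List Bool) : Bool := (kx C x).testBit j

theorem ptime_bitK :
    PTime (fun p : Circuit × (ℕ × List Bool) => bitK p.1 p.2.1 p.2.2) := by
  have h1 : PTime (fun p : Circuit × (ℕ × List Bool) => kx p.1 p.2.2) :=
    ptime_kx.comp (PTime.fst.pair (PTime.snd' PTime.snd))
  refine (PTime.listGetD (PTime.natBits h1) PTime.snd.fst' (PTime.const false)).of_eq
    fun p => ?_
  unfold bitK
  rw [testBit_eq]

theorem pu_dg : PU dg :=
  ((PU.ofLength (ptime_outs PTime.id)).add (pu_n PTime.id)).add (PU.const 11)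

/-- Circuit-FLIP reduces to circuits without ties in which two bits meet all the one-way pairs -/
theorem hard2 : PLSReduces (fun _ => True) (Circuit.Epistasis ⊤ 2) := by
  obtain ⟨G, hG, hG'⟩ := circStmt bitK (fun C => 6 * C.n + 2) dg ptime_bitK pu_kn pu_dg
  refine ⟨G, fun p => qq p.1.n (wt p.2), hG.isPolyTime, ptime_qx.isPolyTime, fun C _ _ => ?_⟩
  obtain ⟨h1, h2, h3, h4⟩ := hG' C (by omega)
  have hcost : ∀ y : List Bool, y.length = 6 * C.n + 2 → (G C).cost y = 2 * kx C y := by
    intro y hy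
    refine cost_of_bits (fun j hj => ?_) ?_
    · rw [h3] at hj
      exact h4 y hy j hj
    · rw [h3]
      exact kx_lt C y
  have hl : ∀ {y : List Bool}, y.length = 6 * C.n + 2 → ∀ i, (flip y i).length = 6 * C.n + 2 :=
    fun hy i => (length_flip _ i).trans hy
  refine ⟨h1, ⟨fun x hx i hi => ?_, Set.univ, {6 * C.n, 6 * C.n + 1}, le_top, ?_,
    fun x hx i hi j hj hij => ⟨fun _ => Or.inl (Set.mem_univ _), fun hone => ?_⟩⟩,
    fun y hy => ?_⟩
  · rw [h2] at hx hi
    rw [hcost _ hx, hcost _ (hl hx i)]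
    have := kx_ne hx hi
    omega
  · exact (Set.encard_insert_le _ _).trans (by rw [Set.encard_singleton]; norm_num)
  · rw [h2] at hx hi hj
    by_contra hcon
    have hi' : i < 6 * C.n := by
      by_contra hc
      exact hcon (Or.inl (by
        rw [Set.mem_insert_iff, Set.mem_singleton_iff]
        omega))
    have hj' : j < 6 * C.n := by
      by_contra hc
      exact hcon (Or.inr (by
        rw [Set.mem_insert_iff, Set.mem_singleton_iff]
        omega))
    have hr := kx_react hx hi' hj'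
    obtain ⟨o1, o2⟩ := hone
    apply o2
    unfold Circuit.Reacts at o1 ⊢
    rw [hcost _ hx, hcost _ (hl hx i), hcost _ (hl hx j), hcost _ (hl (hl hx i) j)]
    rw [hcost _ hx, hcost _ (hl hx i), hcost _ (hl hx j), hcost _ (hl (hl hx j) i)] at o1
    omega
  · obtain ⟨hy, hmin⟩ := hy
    rw [h2] at hy hmin
    refine kx_min (x := y) hy fun i hi => ?_
    have := hmin i hi
    rw [hcost _ hy, hcost _ (hl hy i)] at this
    omega

end Pool.Agent.MPa0a715.SE
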