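import Pool.Agent.Lib.MP_a0a715_lc_SE.Defs
import Pool.Agent.Lib.MP_a0a715_lc_WM.Stmts

/-!
# Statements of the modules (to be proved in the files Paths, Sinks, Restr, Enum, Trans)
-/

namespace Pool.Agent.MPa0a715.SE

open Pool.Agent.MPa0a715 Pool.Agent.PolyTime

/-- Module PATHS: if every pair of bits of which exactly one reacts to the other one contains the
bit `k`, then every improving sequence is short. -/
def PathsStmt : Prop :=
  ∀ (C : Circuit) (k : ℕ), C.TieFree → k < C.n →
    (∀ x : List Bool, x.length = C.n → ∀ i < C.n, ∀ j < C.n, i ≠ j → i ≠ k → j ≠ k →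
      ¬ C.OneWay x i j) →
    ∀ (x : List Bool) (l : List ℕ), x.length = C.n → C.Improving x l →
      l.length ≤ C.n * C.n + C.n

/-- Module SINKS: without pairs of bits which react to each other, a local minimum is a
minimum. -/
def SinksStmt : Prop :=
  ∀ C : Circuit, C.TieFree →
    (∀ x : List Bool, x.length = C.n → ∀ i < C.n, ∀ j < C.n, i ≠ j → ¬ C.Mutual x i j) →
    ∀ x : List Bool, C.IsLocalMin x → ∀ y : List Bool, y.length = C.n → C.cost x ≤ C.cost y

/-- the value of bit `i` after the assignments in the list `s`, if it was `b` before -/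
def ov (s : List (ℕ × Bool)) (i : ℕ) (b : Bool) : Bool :=
  match s.find? fun p => decide (p.1 = i) with
  | none => b
  | some p => p.2

/-- the input `x` after the assignments in the list `s` -/
def assign (n : ℕ) (s : List (ℕ × Bool)) (x : List Bool) : List Bool :=
  (List.range n).map fun i => ov s i (x.getD i false)

/-- the circuit `R` computes the input (with the low digits) and the output of `C` on the input
after the assignments in the list `s` -/
def Restr (C : Circuit) (s : List (ℕ × Bool)) (R : Circuit) : Prop :=
  R.n = C.n ∧ ∀ x : List Bool, x.length = C.n → R.out x = x ++ C.out (assign C.n s x)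

/-- Module RESTR: such circuits are computed in polynomial time. -/
def RestrStmt : Prop :=
  ∃ R : Circuit × List (ℕ × Bool) → Circuit, PTime R ∧ ∀ (C : Circuit) (s : List (ℕ × Bool)),
    0 < C.n → (R (C, s)).Valid ∧ Restr C s (R (C, s))

/-- Module TRANS: in such a circuit the bits without assignment react as before, all the other
ones do not react. -/
def TransStmt : Prop :=
  ∀ (C : Circuit) (s : List (ℕ × Bool)) (R : Circuit), C.TieFree → Restr C s R →
    R.TieFree ∧ ∀ x : List Bool, x.length = C.n → ∀ i < C.n, ∀ j < C.n, i ≠ j →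
      (R.Reacts x i j ↔ (∀ p ∈ s, p.1 ≠ i) ∧ (∀ p ∈ s, p.1 ≠ j) ∧
        C.Reacts (assign C.n s x) i j)

/-- Module ENUM: if for some short list of assignments the circuit is easy and its local minima
give a minimum, then there is a solver. -/
def EnumStmt : Prop :=
  ∀ (c : ℕ) (P Q : Circuit → Prop), HasSolver P →
    (∀ C : Circuit, C.Valid → Q C → 0 < C.n → ∃ s : List (ℕ × Bool), s.length ≤ c ∧
      (∀ p ∈ s, p.1 < C.n) ∧ ∀ R : Circuit, Restr C s R → P R ∧
        ∀ x : List Bool, R.IsLocalMin x → ∀ y : List Bool, y.length = C.n →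
          C.cost (assign C.n s x) ≤ C.cost y) → HasSolver Q

end Pool.Agent.MPa0a715.SE
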