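import Mathlib
import Pool.Agent.Lib.MP_a0a715_lc_SE.Stmts
import Pool.Agent.Lib.MP_a0a715_lc_NB.Easy

/-!
# Sign epistasis: without one-way pairs the improving sequences are short
-/

set_option autoImplicit false

namespace Pool.Agent.MPa0a715.SE

open Pool.Agent.MPa0a715 Pool.Agent.PolyTime

namespace PA

/-- the sign of the flip of bit `i` -/
def s (C : Circuit) (x : List Bool) (i : ℕ) : ℤ := if C.cost (flip x i) < C.cost x then -1 else 1

theorem s_flip {C : Circuit} (hT : C.TieFree) {x : List Bool} (hx : x.length = C.n) {i : ℕ}
    (hi : i < C.n) : s C (flip x i) i = - s C x i := by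
  have h1 := hT x hx i hi
  unfold s
  rw [flip_flip]
  split_ifs <;> omega

/-- the sign is closed off the bit `k` -/
def Closed (C : Circuit) (k : ℕ) : Prop :=
  ∀ x : List Bool, x.length = C.n → ∀ i < C.n, ∀ j < C.n, i ≠ j → i ≠ k → j ≠ k →
    s C x i + s C (flip x i) j = s C x j + s C (flip x j) i

theorem closed {C : Circuit} {k : ℕ} (hT : C.TieFree)
    (hO : ∀ x : List Bool, x.length = C.n → ∀ i < C.n, ∀ j < C.n, i ≠ j → i ≠ k → j ≠ k →
      ¬ C.OneWay x i j) : Closed C k := by
  intro x hx i hi j hj hij hik hjk
  have h1 := hO x hx i hi j hj hij hik hjk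
  have h2 := hO x hx j hj i hi hij.symm hjk hik
  unfold Circuit.OneWay Circuit.Reacts at h1 h2
  have t1 := hT x hx i hi
  have t2 := hT x hx j hj
  have t3 := hT (flip x i) (by rw [length_flip, hx]) j hj
  have t4 := hT (flip x j) (by rw [length_flip, hx]) i hi
  have hc : flip (flip x j) i = flip (flip x i) j := NB.flip_comm _ _ _
  rw [hc] at h1 h2 t4
  unfold s
  rw [hc]
  generalize C.cost x = A at *
  generalize C.cost (flip x i) = B at *
  generalize C.cost (flip x j) = D at *
  generalize C.cost (flip (flip x i) j) = E at *
  split_ifs <;> omega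

/-- the height -/
def h (C : Circuit) (k : ℕ) : ℕ → List Bool → ℤ
  | 0, _ => 0
  | m + 1, x => if m = k ∨ x.getD m false = false then h C k m x
      else h C k m (flip x m) - s C x m

theorem getD_flip_ne {x : List Bool} {i j : ℕ} (hj : j < x.length) (hij : i ≠ j) :
    (flip x i).getD j false = x.getD j false := by
  rw [getD_flip _ _ _ hj, if_neg hij]

theorem getD_flip_self {x : List Bool} {i : ℕ} (hi : i < x.length) :
    (flip x i).getD i false = !x.getD i false := by
  rw [getD_flip _ _ _ hi, if_pos rfl]

theorem h_flip {C : Circuit} {k : ℕ} (hT : C.TieFree) (hC : Closed C k) (m : ℕ) (hm : m ≤ C.n) :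
    ∀ (x : List Bool), x.length = C.n → ∀ i < m, i ≠ k → h C k m (flip x i) = h C k m x + s C x i := by
  induction m with
  | zero => intro x _ i hi; exact absurd hi (Nat.not_lt_zero _)
  | succ m ih =>
    have ih := ih (by omega)
    intro x hx i hi hik
    have hmn : m < C.n := by omega
    have hfx : ∀ j, (flip x j).length = C.n := fun j => by rw [length_flip, hx]
    rw [h, h]
    by_cases hmk : m = k
    · rw [if_pos (Or.inl hmk), if_pos (Or.inl hmk)]
      exact ih x hx i (by omega) hik
    · rcases Nat.lt_succ_iff_lt_or_eq.1 hi with him | him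
      · have e1 : (flip x i).getD m false = x.getD m false :=
          getD_flip_ne (by omega) (by omega)
        rw [e1]
        by_cases hb : x.getD m false = false
        · rw [if_pos (Or.inr hb), if_pos (Or.inr hb)]
          exact ih x hx i him hik
        · rw [if_neg (by tauto), if_neg (by tauto), NB.flip_comm, ih _ (hfx m) i him hik]
          have h1 := hC x hx i (by omega) m hmn (by omega) hik hmk
          omega
      · subst him
        have e1 : (flip x i).getD i false = !x.getD i false := getD_flip_self (by omega)
        rw [e1]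
        by_cases hb : x.getD i false = false
        · have hneg : ¬ (i = k ∨ (!x.getD i false) = false) := by
            rintro (h' | h')
            · exact hmk h'
            · rw [hb] at h'; exact Bool.noConfusion h'
          rw [if_neg hneg, if_pos (Or.inr hb), flip_flip, s_flip hT hx hmn]
          ring
        · have hb' : x.getD i false = true := by simpa using hb
          have hneg : ¬ (i = k ∨ x.getD i false = false) := by
            rintro (h' | h')
            · exact hmk h'
            · exact hb h'
          rw [if_pos (Or.inr (by rw [hb']; rfl)), if_neg hneg]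
          ring

/-- number of bits below `m` different from `k` -/
def cc (k : ℕ) : ℕ → ℤ
  | 0 => 0
  | m + 1 => cc k m + (if m = k then 0 else 1)

theorem cc_eq (k m : ℕ) : cc k m = if k < m then (m : ℤ) - 1 else m := by
  induction m with
  | zero => simp [cc]
  | succ m ih =>
    rw [cc, ih]
    split_ifs <;> push_cast <;> omega

theorem diff {n k : ℕ} {f : List Bool → ℤ}
    (hf : ∀ x : List Bool, x.length = n → ∀ i < n, i ≠ k → |f (flip x i) - f x| ≤ 1) (m : ℕ)
    (hm : m ≤ n) : ∀ x y : List Bool, x.length = n → y.length = n →
      x.getD k false = y.getD k false → (∀ j, m ≤ j → j < n → x.getD j false = y.getD j false) →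
      |f x - f y| ≤ cc k m := by
  induction m with
  | zero =>
    intro x y hx hy _ hj
    have : x = y := ext_getD (by rw [hx, hy]) fun i hi => hj i (Nat.zero_le _) (by omega)
    rw [this, sub_self, abs_zero]
    exact le_rfl
  | succ m ih =>
    have ih := ih (by omega)
    intro x y hx hy hk hj
    by_cases hb : x.getD m false = y.getD m false
    · have h1 := ih x y hx hy hk fun j h1 h2 => by
        rcases Nat.eq_or_lt_of_le h1 with h3 | h3
        · rw [← h3]; exact hb
        · exact hj j h3 h2
      rw [cc]
      split_ifs <;> omega
    · have hmk : m ≠ k := fun e => hb (by rw [e]; exact hk)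
      have h1 := ih (flip x m) y (by rw [length_flip, hx]) hy (by
        by_cases hkn : k < n
        · rw [getD_flip_ne (by omega) hmk]; exact hk
        · rw [List.getD_eq_default _ _ (by rw [length_flip]; omega),
            List.getD_eq_default _ _ (by omega)]) fun j h1 h2 => by
        rcases Nat.eq_or_lt_of_le h1 with h3 | h3
        · subst h3
          rw [getD_flip_self (by omega)]
          revert hb
          cases x.getD m false <;> cases y.getD m false <;> simp
        · rw [getD_flip_ne (by omega) (by omega)]
          exact hj j h3 h2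
      have h2 := hf x hx m (by omega) hmk
      rw [cc, if_neg hmk]
      have h3 : f x - f y = (f (flip x m) - f y) - (f (flip x m) - f x) := by ring
      rw [h3]
      exact (abs_sub _ _).trans (by omega)

theorem s_cases (C : Circuit) (x : List Bool) (i : ℕ) : s C x i = -1 ∨ s C x i = 1 := by
  unfold s
  split_ifs
  · exact Or.inl rfl
  · exact Or.inr rfl

/-- a minimum on a facet -/
theorem exists_min {n k : ℕ} (hk : k < n) (f : List Bool → ℤ) (b : Bool) :
    ∃ y : List Bool, y.length = n ∧ y.getD k false = b ∧
      ∀ x : List Bool, x.length = n → x.getD k false = b → f y ≤ f x := by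
  have hfin : {x : List Bool | x.length = n ∧ x.getD k false = b}.Finite :=
    (List.finite_length_eq Bool n).subset fun x hx => hx.1
  have hne : {x : List Bool | x.length = n ∧ x.getD k false = b}.Nonempty := by
    refine ⟨List.replicate n b, List.length_replicate, ?_⟩
    rw [List.getD_eq_getElem _ _ (by rw [List.length_replicate]; exact hk), List.getElem_replicate]
  obtain ⟨y, hy, hmin⟩ := Set.exists_min_image _ f hfin hne
  exact ⟨y, hy.1, hy.2, fun x h1 h2 => hmin x ⟨h1, h2⟩⟩

theorem main (C : Circuit) (k : ℕ) (hT : C.TieFree) (hk : k < C.n) (hC : Closed C k) :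
    ∃ W : List Bool → ℤ, (∀ x : List Bool, x.length = C.n → 0 ≤ W x ∧ W x ≤ C.n * C.n + C.n) ∧
      ∀ x : List Bool, x.length = C.n → ∀ i < C.n, C.cost (flip x i) < C.cost x →
        W (flip x i) ≤ W x - 1 := by
  set n := C.n with hn
  set f := h C k n with hf
  have hff : ∀ x : List Bool, x.length = n → ∀ i < n, i ≠ k → f (flip x i) = f x + s C x i :=
    h_flip hT hC n le_rfl
  have hlip : ∀ x : List Bool, x.length = n → ∀ i < n, i ≠ k → |f (flip x i) - f x| ≤ 1 := by
    intro x hx i hi hik
    rw [hff x hx i hi hik]
    rcases s_cases C x i with e | e <;> rw [e] <;> simp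
  have hosc : ∀ x y : List Bool, x.length = n → y.length = n →
      x.getD k false = y.getD k false → f x - f y ≤ n - 1 := by
    intro x y hx hy he
    have h1 := diff hlip n le_rfl x y hx hy he (fun j h1 h2 => by omega)
    rw [cc_eq, if_pos hk] at h1
    exact (le_abs_self _).trans h1
  choose Y hY1 hY2 hY3 using exists_min hk f
  set d : List Bool → ℤ := fun x => f x - f (Y (x.getD k false)) with hd
  have hd0 : ∀ x : List Bool, x.length = n → 0 ≤ d x := fun x hx => by
    have := hY3 (x.getD k false) x hx rfl
    simp only [hd]; omega
  have hd1 : ∀ x : List Bool, x.length = n → d x ≤ n - 1 := fun x hx =>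
    hosc x _ hx (hY1 _) (hY2 _).symm
  have hdf : ∀ x : List Bool, x.length = n → ∀ i < n, i ≠ k → d (flip x i) = d x + s C x i := by
    intro x hx i hi hik
    simp only [hd]
    rw [hff x hx i hi hik, getD_flip_ne (by omega) hik]
    ring
  set a : List Bool → ℤ := fun x => if C.cost (flip x k) < C.cost x then 1 else 0 with ha
  have hfl : ∀ x : List Bool, x.length = n → ∀ i, (flip x i).length = n := fun x hx i => by
    rw [length_flip, hx]
  refine ⟨fun x => n * ((d x + d (flip x k)) / 2 + a x) + d x, ?_, ?_⟩
  · intro x hx
    have h1 := hd0 x hx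
    have h2 := hd1 x hx
    have h3 := hd0 (flip x k) (hfl x hx k)
    have h4 := hd1 (flip x k) (hfl x hx k)
    have h5 : 0 ≤ a x ∧ a x ≤ 1 := by
      simp only [ha]
      split_ifs <;> simp
    have h6 : 0 ≤ (d x + d (flip x k)) / 2 + a x := by omega
    have h7 : (d x + d (flip x k)) / 2 + a x ≤ n := by omega
    have hn0 : (0 : ℤ) ≤ n := Nat.cast_nonneg n
    refine ⟨add_nonneg (mul_nonneg hn0 h6) h1, ?_⟩
    have h8 := mul_le_mul_of_nonneg_left h7 hn0
    dsimp only
    omega
  · intro x hx i hi himp
    dsimp only
    by_cases hik : i = k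
    · subst hik
      have e1 : a x = 1 := by simp only [ha]; rw [if_pos himp]
      have e2 : a (flip x i) = 0 := by
        simp only [ha]
        rw [flip_flip, if_neg (by omega)]
      rw [e1, e2, flip_flip, add_comm (d (flip x i)) (d x)]
      have h1 := hd0 x hx
      have h4 := hd1 (flip x i) (hfl x hx i)
      have h5 : (n : ℤ) * ((d x + d (flip x i)) / 2 + 1) =
        n * ((d x + d (flip x i)) / 2 + 0) + n := by ring
      rw [h5]
      omega
    · have es : s C x i = -1 := by unfold s; rw [if_pos himp]
      have e1 : d (flip x i) = d x - 1 := by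
        rw [hdf x hx i hi hik, es]; ring
      have e2 : d (flip (flip x i) k) = d (flip x k) + s C (flip x k) i := by
        rw [NB.flip_comm, hdf _ (hfl x hx k) i hi hik]
      rw [e1, e2]
      have hn0 : (0 : ℤ) ≤ n := Nat.cast_nonneg n
      rcases s_cases C (flip x k) i with e | e
      · -- both go down
        rw [e]
        have h5 : a (flip x i) ≤ 1 := by simp only [ha]; split_ifs <;> simp
        have h6 : 0 ≤ a x := by simp only [ha]; split_ifs <;> simp
        have h7 : (d x - 1 + (d (flip x k) + -1)) / 2 + a (flip x i) ≤
            (d x + d (flip x k)) / 2 + a x := by omega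
        have h8 := mul_le_mul_of_nonneg_left h7 hn0
        omega
      · rw [e]
        have h5 : a (flip x i) ≤ a x := by
          have t1 := hT x hx i hi
          have t2 := hT x hx k hk
          have t3 := hT (flip x i) (hfl x hx i) k hk
          have t4 := hT (flip x k) (hfl x hx k) i hi
          have hc : flip (flip x k) i = flip (flip x i) k := NB.flip_comm _ _ _
          rw [hc] at t4
          unfold s at e
          rw [hc] at e
          simp only [ha]
          split_ifs at e with h9
          split_ifs <;> omega
        have h7 : (d x - 1 + (d (flip x k) + 1)) / 2 + a (flip x i) ≤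
            (d x + d (flip x k)) / 2 + a x := by
          have : d x - 1 + (d (flip x k) + 1) = d x + d (flip x k) := by ring
          rw [this]; omega
        have h8 := mul_le_mul_of_nonneg_left h7 hn0
        omega

end PA

theorem paths : PathsStmt := by
  intro C k hT hk hO x l hx hl
  obtain ⟨W, hW1, hW2⟩ := PA.main C k hT hk (PA.closed hT hO)
  have key : ∀ (l : List ℕ) (x : List Bool), x.length = C.n → C.Improving x l →
      (l.length : ℤ) ≤ W x := by
    intro l
    induction l with
    | nil => intro x hx _; exact_mod_cast (hW1 x hx).1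
    | cons i l ih =>
      intro x hx hl
      have h1 := NB.mem_better.1 hl.1
      have h2 := ih (flip x i) (by rw [length_flip, hx]) hl.2
      have h3 := hW2 x hx i h1.1 h1.2
      rw [List.length_cons]
      push_cast
      omega
  have h1 := key l x hx hl
  have h2 := (hW1 x hx).2
  have h3 : (l.length : ℤ) ≤ ((C.n * C.n + C.n : ℕ) : ℤ) := by push_cast; omega
  exact_mod_cast h3

end Pool.Agent.MPa0a715.SE
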