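import Pool.Agent.Lib.MP_a0a715_lc_SE.Enum
import Pool.Agent.Lib.MP_a0a715_lc_WM.Circ

/-!
# Module RESTR: circuits for restrictions are computed in polynomial time
-/

namespace Pool.Agent.MPa0a715.SE

open Pool.Agent.MPa0a715 Pool.Agent.PolyTime

/-- the bits of the input followed by the bits of the output after the assignments -/
def restrBit (a : Circuit × List (ℕ × Bool)) (j : ℕ) (x : List Bool) : Bool :=
  if j < a.1.n then x.getD j false
  else (a.1.out (assign a.1.n a.2 x)).getD (j - a.1.n) false

theorem ptime_restrBit :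
    PTime (fun p : (Circuit × List (ℕ × Bool)) × (ℕ × List Bool) =>
      restrBit p.1 p.2.1 p.2.2) := by
  have hC : PTime (fun p : (Circuit × List (ℕ × Bool)) × (ℕ × List Bool) => p.1.1) :=
    PTime.fst' PTime.fst
  have hs : PTime (fun p : (Circuit × List (ℕ × Bool)) × (ℕ × List Bool) => p.1.2) :=
    PTime.snd' PTime.fst
  have hj : PTime (fun p : (Circuit × List (ℕ × Bool)) × (ℕ × List Bool) => p.2.1) :=
    PTime.fst' PTime.snd
  have hx : PTime (fun p : (Circuit × List (ℕ × Bool)) × (ℕ × List Bool) => p.2.2) :=
    PTime.snd' PTime.snd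
  have hn : PU (fun p : (Circuit × List (ℕ × Bool)) × (ℕ × List Bool) => p.1.1.n) := pu_n hC
  exact PTime.iteP (PTime.lt hj hn.toNat) (PTime.listGetD hx hj (PTime.const false))
    (PTime.listGetD (ptime_out hC (ptime_assign hn hs hx)) (hj.sub hn.toNat)
      (PTime.const false))

/-- Circuits for restrictions are computed in polynomial time. -/
theorem restr : RestrStmt := by
  have hn : PU (fun a : Circuit × List (ℕ × Bool) => a.1.n) := pu_n PTime.fst
  have hM : PU (fun a : Circuit × List (ℕ × Bool) => a.1.n + a.1.outs.length) :=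
    hn.add (PU.ofLength (ptime_outs PTime.fst))
  obtain ⟨G, hG, hGs⟩ := WM.circStmt restrBit (fun a => a.1.n)
    (fun a => a.1.n + a.1.outs.length) ptime_restrBit hn hM
  refine ⟨G, hG, fun C s hC => ?_⟩
  obtain ⟨h1, h2, h3, h4⟩ := hGs (C, s) hC
  refine ⟨h1, h2, fun x hx => ?_⟩
  have hl : ((G (C, s)).out x).length = C.n + C.outs.length := by
    unfold Circuit.out
    rw [List.length_map]
    exact h3
  refine ext_getD ?_ fun j hj => ?_
  · rw [hl, List.length_append, hx]
    unfold Circuit.out
    rw [List.length_map]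
  · rw [hl] at hj
    have h5 : ((G (C, s)).out x).getD j false = (G (C, s)).outBit x j := by
      have hj' : j < (G (C, s)).outs.length := by rw [h3]; exact hj
      unfold Circuit.out Circuit.outBit Circuit.env
      rw [List.getD_eq_getElem _ _ (by rw [List.length_map]; exact hj'), List.getElem_map,
        List.getD_eq_getElem (G (C, s)).outs _ hj']
    rw [h5, h4 x hx j hj]
    unfold restrBit
    by_cases h : j < C.n
    · rw [if_pos h, List.getD_append _ _ _ _ (by rw [hx]; exact h)]
    · rw [if_neg h, List.getD_append_right _ _ _ _ (by rw [hx]; omega), hx]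

end Pool.Agent.MPa0a715.SE
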