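import Mathlib
import Pool.Agent.Lib.MP_a0a715_lc_SE.Stmts
import Pool.Agent.Lib.MP_a0a715_lc_NB.Easy

/-!
# Sign epistasis: without mutual reactions every local minimum is a minimum
-/

set_option autoImplicit false

namespace Pool.Agent.MPa0a715.SE

open Pool.Agent.MPa0a715 Pool.Agent.PolyTime

namespace SI

/-- the bits in which two inputs differ -/
def D (n : ℕ) (x y : List Bool) : Finset ℕ :=
  (Finset.range n).filter fun i => x.getD i false ≠ y.getD i false

theorem mem_D {n : ℕ} {x y : List Bool} {i : ℕ} :
    i ∈ D n x y ↔ i < n ∧ x.getD i false ≠ y.getD i false := by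
  unfold D
  rw [Finset.mem_filter, Finset.mem_range]

theorem D_flip {n : ℕ} {x y : List Bool} (hx : x.length = n) {i : ℕ} (hi : i ∈ D n x y) :
    D n (flip x i) y = (D n x y).erase i := by
  ext j
  rw [Finset.mem_erase, mem_D, mem_D]
  rw [mem_D] at hi
  constructor
  · rintro ⟨h1, h2⟩
    rw [getD_flip _ _ _ (by omega)] at h2
    by_cases hij : i = j
    · subst hij
      rw [if_pos rfl] at h2
      exfalso
      apply h2
      have := hi.2
      revert this
      cases x.getD i false <;> cases y.getD i false <;> simp
    · rw [if_neg hij] at h2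
      exact ⟨fun h => hij h.symm, h1, h2⟩
  · rintro ⟨h1, h2, h3⟩
    refine ⟨h2, ?_⟩
    rw [getD_flip _ _ _ (by omega), if_neg (fun h => h1 h.symm)]
    exact h3

theorem eq_of_D {n : ℕ} {x y : List Bool} (hx : x.length = n) (hy : y.length = n)
    (h : D n x y = ∅) : x = y := by
  refine ext_getD (by omega) fun i hi => ?_
  by_contra hne
  have : i ∈ D n x y := mem_D.mpr ⟨by omega, hne⟩
  rw [h] at this
  exact absurd this (Finset.notMem_empty i)

theorem claim {C : Circuit} (hT : C.TieFree)
    (hM : ∀ x : List Bool, x.length = C.n → ∀ i < C.n, ∀ j < C.n, i ≠ j → ¬ C.Mutual x i j)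
    (d : ℕ) : ∀ x y : List Bool, x.length = C.n → y.length = C.n → (D C.n x y).card = d + 1 →
      (∀ i ∈ D C.n x y, C.cost x < C.cost (flip x i)) →
      (∀ i ∈ D C.n x y, C.cost y < C.cost (flip y i)) → False := by
  induction d with
  | zero =>
    intro x y hx hy hc h1 h2
    obtain ⟨i, hi⟩ := Finset.card_eq_one.mp hc
    have hiD : i ∈ D C.n x y := by rw [hi]; exact Finset.mem_singleton_self i
    have h3 : flip x i = y := by
      apply eq_of_D (n := C.n) (by rw [length_flip, hx]) hy
      rw [D_flip hx hiD, hi, Finset.erase_singleton]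
    have h4 := h1 i hiD
    have h5 := h2 i hiD
    rw [← h3, flip_flip] at h5
    omega
  | succ d ih =>
    intro x y hx hy hc h1 h2
    have hne : (D C.n x y).Nonempty := Finset.card_pos.mp (by omega)
    obtain ⟨i, hi, hmin⟩ := Finset.exists_min_image (D C.n x y) (fun i => C.cost (flip x i)) hne
    have hin := (mem_D.mp hi).1
    have hD := D_flip hx hi
    have hv : (flip x i).length = C.n := by rw [length_flip, hx]
    have hcard : (D C.n (flip x i) y).card = d + 1 := by
      rw [hD, Finset.card_erase_of_mem hi]
      omega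
    have hex : ∃ j ∈ D C.n (flip x i) y,
        ¬ C.cost (flip x i) < C.cost (flip (flip x i) j) := by
      by_contra hcon
      push Not at hcon
      refine ih (flip x i) y hv hy hcard hcon ?_
      intro j hj
      rw [hD] at hj
      exact h2 j (Finset.mem_of_mem_erase hj)
    obtain ⟨j, hj, hlt⟩ := hex
    rw [hD, Finset.mem_erase] at hj
    have hjn := (mem_D.mp hj.2).1
    have t := hT (flip x i) hv j hjn
    have h3 : C.cost (flip x i) ≤ C.cost (flip x j) := hmin j hj.2
    have h4 := h1 i hi
    have h5 := h1 j hj.2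
    refine hM x hx i hin j hjn hj.1.symm ⟨?_, ?_⟩
    · unfold Circuit.Reacts
      rw [show flip (flip x j) i = flip (flip x i) j from NB.flip_comm _ _ _]
      omega
    · unfold Circuit.Reacts
      omega

end SI

/-- without pairs of bits which react to each other, a local minimum is a minimum -/
theorem sinks : SinksStmt := by
  intro C hT hM x hx y hy
  have hfin : {z : List Bool | z.length = C.n}.Finite := List.finite_length_eq Bool C.n
  obtain ⟨m, hm, hmin⟩ := Set.exists_min_image _ C.cost hfin ⟨x, hx.1⟩
  have hxm : x = m := by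
    by_contra hne
    have h1 : (SI.D C.n x m).card ≠ 0 := by
      intro h
      exact hne (SI.eq_of_D hx.1 hm (Finset.card_eq_zero.mp h))
    obtain ⟨d, hd⟩ : ∃ d, (SI.D C.n x m).card = d + 1 := ⟨(SI.D C.n x m).card - 1, by omega⟩
    refine SI.claim hT hM d x m hx.1 hm hd ?_ ?_
    · intro i hi
      have hin := (SI.mem_D.mp hi).1
      have h2 := hx.2 i hin
      have h3 := hT x hx.1 i hin
      omega
    · intro i hi
      have hin := (SI.mem_D.mp hi).1
      have h2 := hmin (flip m i) (by rw [Set.mem_ofPred_eq, length_flip]; exact hm)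
      have h3 := hT m hm i hin
      omega
  rw [hxm]
  exact hmin y hy

end Pool.Agent.MPa0a715.SE
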